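import Pool.Agent.Work.MP_674062_gt.Un.Stmts

/-!
# Item BH of block Un: a set with the sequence form of Split and a Hurewicz set are bi-splitting
-/

open Set Filter

namespace Pool.Agent.Work.MP_674062_gt.Un

lemma BH_inf {p : ℕ → Prop} : {n | p n}.Infinite ↔ ∀ N, ∃ n, N ≤ n ∧ p n := by
  rw [← Nat.frequently_atTop_iff_infinite, Filter.frequently_atTop]

lemma BH_block {b : ℕ → ℕ} (hb : StrictMono b) (h0 : b 0 = 0) (n : ℕ) :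
    ∃ k, b k ≤ n ∧ n < b (k + 1) := by
  classical
  have hex : ∃ k, n < b (k + 1) := ⟨n, lt_of_lt_of_le (Nat.lt_succ_self n) (hb.id_le (n + 1))⟩
  refine ⟨Nat.find hex, ?_, Nat.find_spec hex⟩
  rcases Nat.eq_zero_or_pos (Nat.find hex) with h | h
  · rw [h, h0]; exact Nat.zero_le n
  · have h1 := Nat.find_min hex (Nat.sub_lt h Nat.one_pos)
    rw [Nat.sub_add_cancel h] at h1
    exact not_lt.1 h1

lemma BH_same {b : ℕ → ℕ} (hb : StrictMono b) {n k l : ℕ} (h1 : b k ≤ n) (h2 : n < b (k + 1))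
    (h3 : b l ≤ n) (h4 : n < b (l + 1)) : k = l := by
  have h5 : k < l + 1 := hb.lt_iff_lt.1 (lt_of_le_of_lt h1 h4)
  have h6 : l < k + 1 := hb.lt_iff_lt.1 (lt_of_le_of_lt h3 h2)
  omega

/-- coarse sets are large -/
lemma BH_coarse {b : ℕ → ℕ} (hb : StrictMono b) (h0 : b 0 = 0) {p : ℕ → Prop}
    (hp : {n | p n}.Infinite) : {k | ∃ n, b k ≤ n ∧ n < b (k + 1) ∧ p n}.Infinite := by
  rw [BH_inf] at hp ⊢
  intro N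
  obtain ⟨n, hn, hpn⟩ := hp (b N)
  obtain ⟨k, h1, h2⟩ := BH_block hb h0 n
  refine ⟨k, ?_, n, h1, h2, hpn⟩
  have h3 : N < k + 1 := hb.lt_iff_lt.1 (lt_of_le_of_lt hn h2)
  omega

/-- back from the coarse sets -/
lemma BH_fine {b : ℕ → ℕ} (hb : StrictMono b) {p q : ℕ → Prop} {K : Set ℕ}
    (hK : ∀ N, ∃ k, N ≤ k ∧ k ∈ K ∧ ∃ n, b k ≤ n ∧ n < b (k + 1) ∧ p n)
    (hq : ∀ k n, k ∈ K → b k ≤ n → n < b (k + 1) → q n) : {n | q n ∧ p n}.Infinite := by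
  rw [BH_inf]
  intro N
  obtain ⟨k, hk, hkK, n, h1, h2, h3⟩ := hK N
  exact ⟨n, le_trans hk (le_trans (hb.id_le k) h1), hq k n hkK h1 h2, h3⟩

lemma BH_part (K₀ K₁ : Set ℕ) : ∃ A B : Set ℕ, (A = K₀ ∨ A = K₀ᶜ) ∧ (B = K₁ ∨ B = K₁ᶜ) ∧
    (A ∩ B).Infinite := by
  have h : (univ : Set ℕ).Infinite := infinite_univ
  have e : (univ : Set ℕ) = ((K₀ ∩ K₁) ∪ (K₀ ∩ K₁ᶜ)) ∪ ((K₀ᶜ ∩ K₁) ∪ (K₀ᶜ ∩ K₁ᶜ)) := by
    ext n
    simp only [mem_univ, mem_union, mem_inter_iff, mem_compl_iff, true_iff]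
    tauto
  rw [e, infinite_union, infinite_union, infinite_union] at h
  rcases h with (h | h) | (h | h)
  · exact ⟨_, _, Or.inl rfl, Or.inl rfl, h⟩
  · exact ⟨_, _, Or.inl rfl, Or.inr rfl, h⟩
  · exact ⟨_, _, Or.inr rfl, Or.inl rfl, h⟩
  · exact ⟨_, _, Or.inr rfl, Or.inr rfl, h⟩

theorem un_BH (hBL : StBL) : StBH := by
  intro X Y hX hY W₀ W₁ V₀ V₁ hW₀ hW₁ hV₀ hV₁ hXW₀ hXW₁ hYV₀ hYV₁
  obtain ⟨b, hb, hb0, hbY⟩ := hBL Y V₀ V₁ hY hV₀ hV₁ hYV₀ hYV₁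
  have hco : ∀ W : ℕ → Set ℝ, (∀ n, IsOpen (W n)) → (∀ x ∈ X, {n | x ∈ W n}.Infinite) →
      ∃ K : Set ℕ, ∀ x ∈ X,
        (∀ N, ∃ k, N ≤ k ∧ k ∈ K ∧ ∃ n, b k ≤ n ∧ n < b (k + 1) ∧ x ∈ W n) ∧
        ∀ N, ∃ k, N ≤ k ∧ k ∈ Kᶜ ∧ ∃ n, b k ≤ n ∧ n < b (k + 1) ∧ x ∈ W n := by
    intro W hW hXW
    obtain ⟨K, hK⟩ := hX (fun k => {x | ∃ n, b k ≤ n ∧ n < b (k + 1) ∧ x ∈ W n})
      (fun k => by
        have e : {x | ∃ n, b k ≤ n ∧ n < b (k + 1) ∧ x ∈ W n} =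
            ⋃ n, ⋃ _ : b k ≤ n ∧ n < b (k + 1), W n := by
          ext x
          simp only [mem_iUnion]
          constructor
          · rintro ⟨n, h1, h2, h3⟩; exact ⟨n, ⟨h1, h2⟩, h3⟩
          · rintro ⟨n, ⟨h1, h2⟩, h3⟩; exact ⟨n, h1, h2, h3⟩
        show IsOpen {x | ∃ n, b k ≤ n ∧ n < b (k + 1) ∧ x ∈ W n}
        rw [e]
        exact isOpen_iUnion fun n => isOpen_iUnion fun _ => hW n)
      (fun x hx => BH_coarse hb hb0 (hXW x hx))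
    refine ⟨K, fun x hx => ⟨?_, ?_⟩⟩
    · exact BH_inf.1 (hK x hx).1
    · exact BH_inf.1 (hK x hx).2
  obtain ⟨K₀, hK₀⟩ := hco W₀ hW₀ hXW₀
  obtain ⟨K₁, hK₁⟩ := hco W₁ hW₁ hXW₁
  obtain ⟨A, B, hA, hB, hAB⟩ := BH_part K₀ K₁
  have hA' : ∀ x ∈ X, ∀ N, ∃ k, N ≤ k ∧ k ∈ Aᶜ ∧ ∃ n, b k ≤ n ∧ n < b (k + 1) ∧ x ∈ W₀ n := by
    intro x hx
    rcases hA with rfl | rfl
    · exact (hK₀ x hx).2
    · rw [compl_compl]; exact (hK₀ x hx).1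
  have hB' : ∀ x ∈ X, ∀ N, ∃ k, N ≤ k ∧ k ∈ Bᶜ ∧ ∃ n, b k ≤ n ∧ n < b (k + 1) ∧ x ∈ W₁ n := by
    intro x hx
    rcases hB with rfl | rfl
    · exact (hK₁ x hx).2
    · rw [compl_compl]; exact (hK₁ x hx).1
  refine ⟨{n | ∃ k, k ∉ A ∩ B ∧ b k ≤ n ∧ n < b (k + 1)}, fun x hx => ⟨?_, ?_⟩, fun y hy => ?_⟩
  · refine BH_fine hb (K := Aᶜ) (hA' x hx) fun k n hk h1 h2 => ⟨k, fun h => hk h.1, h1, h2⟩
  · refine BH_fine hb (K := Bᶜ) (hB' x hx) fun k n hk h1 h2 => ⟨k, fun h => hk h.2, h1, h2⟩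
  · have hev := hbY y hy
    obtain ⟨M, hM⟩ := Filter.eventually_atTop.1 hev
    have hAB' : ∀ N, ∃ k, N ≤ k ∧ k ∈ A ∩ B := BH_inf.1 hAB
    have hq : ∀ k n, k ∈ A ∩ B → b k ≤ n → n < b (k + 1) →
        n ∉ {n | ∃ k, k ∉ A ∩ B ∧ b k ≤ n ∧ n < b (k + 1)} := by
      rintro k n hk h1 h2 ⟨l, hl, h3, h4⟩
      exact hl (BH_same hb h1 h2 h3 h4 ▸ hk)
    constructor
    · refine BH_fine hb (K := A ∩ B) (fun N => ?_) hq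
      obtain ⟨k, hk, hkAB⟩ := hAB' (max N M)
      exact ⟨k, le_trans (le_max_left _ _) hk, hkAB, (hM k (le_trans (le_max_right _ _) hk)).1⟩
    · refine BH_fine hb (K := A ∩ B) (fun N => ?_) hq
      obtain ⟨k, hk, hkAB⟩ := hAB' (max N M)
      exact ⟨k, le_trans (le_max_left _ _) hk, hkAB, (hM k (le_trans (le_max_right _ _) hk)).2⟩

end Pool.Agent.Work.MP_674062_gt.Un
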