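import Pool.Agent.Work.MP_674062_gt.Un.Stmts

/-!
# Block Un of MP_674062_gt: item BL, blocks for a Hurewicz set
-/

set_option autoImplicit false

open Set Filter

namespace Pool.Agent.Work.MP_674062_gt.Un

/-- The points which meet the sequence `V` between `k` and `l`. -/
def BL_O (V : ℕ → Set ℝ) (k l : ℕ) : Set ℝ := {y | ∃ n, k ≤ n ∧ n < l ∧ y ∈ V n}

theorem BL_O_open (V : ℕ → Set ℝ) (hV : ∀ n, IsOpen (V n)) (k l : ℕ) : IsOpen (BL_O V k l) := by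
  have h : BL_O V k l = ⋃ n ∈ {n | k ≤ n ∧ n < l}, V n := by
    ext y
    simp only [BL_O, Set.mem_ofPred_eq, Set.mem_iUnion, exists_prop, and_assoc]
  rw [h]
  exact isOpen_biUnion fun n _ => hV n

theorem BL_O_mono (V : ℕ → Set ℝ) (k : ℕ) : Monotone (BL_O V k) := by
  intro l l' hl y hy
  obtain ⟨n, h1, h2, h3⟩ := hy
  exact ⟨n, h1, lt_of_lt_of_le h2 hl, h3⟩

theorem BL_O_cover (V : ℕ → Set ℝ) (k : ℕ) (y : ℝ) (hy : {n | y ∈ V n}.Infinite) :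
    ∃ l, y ∈ BL_O V k l := by
  obtain ⟨n, hn, hkn⟩ := hy.exists_gt k
  exact ⟨n + 1, n, hkn.le, Nat.lt_succ_self n, hn⟩

/-- The end points of the blocks. -/
def BL_b (h : ℕ → ℕ) : ℕ → ℕ
  | 0 => 0
  | k + 1 => max (h (BL_b h k)) (BL_b h k + 1)

/-- Item BL. -/
theorem un_BL (hSELH : StSELH) : StBL := by
  intro Y V₀ V₁ hY hV₀ hV₁ hi₀ hi₁
  obtain ⟨h, hh⟩ := hSELH Y (fun k l => BL_O V₀ k l ∩ BL_O V₁ k l) hY
    (fun k l => (BL_O_open V₀ hV₀ k l).inter (BL_O_open V₁ hV₁ k l))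
    (fun k l l' hl => Set.inter_subset_inter (BL_O_mono V₀ k hl) (BL_O_mono V₁ k hl))
    (by
      intro k y hy
      obtain ⟨l₀, h₀⟩ := BL_O_cover V₀ k y (hi₀ y hy)
      obtain ⟨l₁, h₁⟩ := BL_O_cover V₁ k y (hi₁ y hy)
      rw [Set.mem_iUnion]
      exact ⟨max l₀ l₁, BL_O_mono V₀ k (le_max_left _ _) h₀, BL_O_mono V₁ k (le_max_right _ _) h₁⟩)
  have hb : StrictMono (BL_b h) := by
    apply strictMono_nat_of_lt_succ
    intro k
    show BL_b h k < max (h (BL_b h k)) (BL_b h k + 1)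
    exact lt_of_lt_of_le (Nat.lt_succ_self _) (le_max_right _ _)
  refine ⟨BL_b h, hb, rfl, ?_⟩
  intro y hy
  have h1 : ∀ᶠ k in atTop, y ∈ BL_O V₀ (BL_b h k) (h (BL_b h k)) ∩
      BL_O V₁ (BL_b h k) (h (BL_b h k)) := hb.tendsto_atTop.eventually (hh y hy)
  filter_upwards [h1] with k hk
  have h2 : h (BL_b h k) ≤ BL_b h (k + 1) := le_max_left _ _
  exact ⟨BL_O_mono V₀ _ h2 hk.1, BL_O_mono V₁ _ h2 hk.2⟩

end Pool.Agent.Work.MP_674062_gt.Un
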