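import Pool.Agent.Work.MP_674062_gt.Un.Stmts

/-!
Item CO (helper92): concentrated sets: countable unions, Menger.
-/

open Set Filter

namespace Pool.Agent.Work.MP_674062_gt.Un

theorem CO_union (hHU : StHU) (Y : ℕ → Set ℝ) (h : ∀ n, Conc (Y n)) : Conc (⋃ n, Y n) := by
  choose H hHY hHH hHG using h
  refine ⟨⋃ n, H n, Set.iUnion_mono hHY, hHU.1 H hHH, fun G hG hHG' => ?_⟩
  have e : (⋃ n, Y n) \ G = ⋃ n, (Y n \ G) := Set.iUnion_sdiff G Y
  rw [e]
  exact hHU.1 _ fun n => hHG n G hG ((Set.subset_iUnion H n).trans hHG')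

theorem CO_menger (hHU : StHU) (Y : Set ℝ) (h : Conc Y) : Menger Y := by
  obtain ⟨H, hHY, hHH, hHG⟩ := h
  intro 𝒰 ho hc
  obtain ⟨F, hF, hFc⟩ := hHU.2.2 H hHH (fun n => 𝒰 (2 * n)) (fun n => ho (2 * n))
    (fun n => hHY.trans (hc (2 * n)))
  set G : Set ℝ := ⋃ n, ⋃₀ F n with hG
  have hGo : IsOpen G :=
    isOpen_iUnion fun n => isOpen_sUnion fun U hU => ho (2 * n) U ((hF n).1 hU)
  have hHG' : H ⊆ G := by
    intro x hx
    obtain ⟨n, hn⟩ := hFc x hx
    exact Set.mem_iUnion.2 ⟨n, hn⟩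
  obtain ⟨E, hE, hEc⟩ := hHU.2.2 (Y \ G) (hHG G hGo hHG') (fun n => 𝒰 (2 * n + 1))
    (fun n => ho (2 * n + 1)) (fun n => Set.sdiff_subset.trans (hc (2 * n + 1)))
  refine ⟨fun n => if n % 2 = 0 then F (n / 2) else E (n / 2), fun n => ?_, fun x hx => ?_⟩
  · dsimp only
    split_ifs with h
    · have h1 := hF (n / 2)
      have h2 : 2 * (n / 2) = n := by omega
      simp only [h2] at h1
      exact h1
    · have h1 := hE (n / 2)
      have h2 : 2 * (n / 2) + 1 = n := by omega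
      simp only [h2] at h1
      exact h1
  · by_cases hxG : x ∈ G
    · obtain ⟨n, hn⟩ := Set.mem_iUnion.1 hxG
      refine ⟨2 * n, ?_⟩
      have h1 : 2 * n % 2 = 0 := by omega
      have h2 : 2 * n / 2 = n := by omega
      dsimp only
      rw [if_pos h1, h2]
      exact hn
    · obtain ⟨n, hn⟩ := hEc x ⟨hx, hxG⟩
      refine ⟨2 * n + 1, ?_⟩
      have h1 : ¬ (2 * n + 1) % 2 = 0 := by omega
      have h2 : (2 * n + 1) / 2 = n := by omega
      dsimp only
      rw [if_neg h1, h2]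
      exact hn

/-- Item CO. -/
theorem un_CO (hHU : StHU) : StCO := by
  refine ⟨CO_union hHU, fun X Y hX hY => ?_, CO_menger hHU⟩
  have h := CO_union hHU (fun n => if n = 0 then X else Y) (fun n => by
    split_ifs
    · exact hX
    · exact hY)
  have e : (⋃ n : ℕ, (if n = 0 then X else Y)) = X ∪ Y := by
    ext x
    rw [Set.mem_iUnion, Set.mem_union]
    constructor
    · rintro ⟨n, hn⟩
      split_ifs at hn
      · exact Or.inl hn
      · exact Or.inr hn
    · rintro (hx | hx)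
      · exact ⟨0, by rw [if_pos rfl]; exact hx⟩
      · exact ⟨1, by rw [if_neg one_ne_zero]; exact hx⟩
  rw [e] at h
  exact h

end Pool.Agent.Work.MP_674062_gt.Un
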