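import Pool.Agent.Work.MP_674062_gt.Un.Stmts

/-!
# Block Un, item GL (helper4): gluing
-/

open Set Filter Cardinal

namespace Pool.Agent.Work.MP_674062_gt.Un

/-- the sequence `W` restricted to the indices with `p` -/
def GL_r (W : ℕ → Set ℝ) (p : ℕ → Prop) (n : ℕ) : Set ℝ := {x | p n ∧ x ∈ W n}

theorem GL_open (W : ℕ → Set ℝ) (hW : ∀ n, IsOpen (W n)) (p : ℕ → Prop) :
    ∀ n, IsOpen (GL_r W p n) := by
  intro n
  by_cases h : p n
  · have : GL_r W p n = W n := by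
      ext x
      simp [GL_r, h]
    rw [this]
    exact hW n
  · have : GL_r W p n = ∅ := by
      ext x
      simp [GL_r, h]
    rw [this]
    exact isOpen_empty

theorem un_GL : StGL := by
  intro X Y hX hY hB W hW hinf
  obtain ⟨C₀, h0⟩ := hX W hW (fun x hx => hinf x (Or.inl hx))
  obtain ⟨C₁, h1⟩ := hY W hW (fun x hx => hinf x (Or.inr hx))
  obtain ⟨E, hE1, hE2⟩ := hB (GL_r W (fun n => n ∈ C₀)) (GL_r W (fun n => n ∉ C₀))
    (GL_r W (fun n => n ∈ C₁)) (GL_r W (fun n => n ∉ C₁)) (GL_open W hW _) (GL_open W hW _)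
    (GL_open W hW _) (GL_open W hW _) (fun x hx => (h0 x hx).1) (fun x hx => (h0 x hx).2)
    (fun x hx => (h1 x hx).1) (fun x hx => (h1 x hx).2)
  refine ⟨{n | (n ∈ E ∧ n ∈ C₀) ∨ (n ∉ E ∧ n ∈ C₁)}, ?_⟩
  rintro x (hx | hx)
  · obtain ⟨h2, h3⟩ := hE1 x hx
    constructor
    · refine h2.mono ?_
      rintro n ⟨hn1, hn2, hn3⟩
      exact ⟨Or.inl ⟨hn1, hn2⟩, hn3⟩
    · refine h3.mono ?_
      rintro n ⟨hn1, hn2, hn3⟩
      refine ⟨?_, hn3⟩
      rintro (⟨-, h⟩ | ⟨h, -⟩)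
      · exact hn2 h
      · exact h hn1
  · obtain ⟨h2, h3⟩ := hE2 x hx
    constructor
    · refine h2.mono ?_
      rintro n ⟨hn1, hn2, hn3⟩
      exact ⟨Or.inr ⟨hn1, hn2⟩, hn3⟩
    · refine h3.mono ?_
      rintro n ⟨hn1, hn2, hn3⟩
      refine ⟨?_, hn3⟩
      rintro (⟨h, -⟩ | ⟨-, h⟩)
      · exact hn1 h
      · exact hn2 h

end Pool.Agent.Work.MP_674062_gt.Un
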