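import Pool.Agent.Work.MP_674062_gt.Un.Stmts

/-!
# Block Un, item HS: a Hurewicz set has the sequence form of Split
-/

set_option autoImplicit false

open Set Filter

namespace Pool.Agent.Work.MP_674062_gt.Un

theorem un_HS_block (b : ℕ → ℕ) (hb : StrictMono b) (k k' n : ℕ) (h1 : b k ≤ n)
    (h2 : n < b (k + 1)) (h3 : b k' ≤ n) (h4 : n < b (k' + 1)) : k = k' := by
  rcases lt_trichotomy k k' with h | h | h
  · have := hb.monotone (show k + 1 ≤ k' by omega)
    omega
  · exact h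
  · have := hb.monotone (show k' + 1 ≤ k by omega)
    omega

theorem un_HS (hBL : StBL) : StHS := by
  intro Y hY W hW hinf
  obtain ⟨b, hb, _, hbY⟩ := hBL Y W W hY hW hW hinf hinf
  refine ⟨{n | ∃ k, Even k ∧ b k ≤ n ∧ n < b (k + 1)}, fun x hx => ?_⟩
  obtain ⟨K, hK⟩ := Filter.eventually_atTop.1 (hbY x hx)
  constructor
  · refine Set.infinite_of_forall_exists_gt fun N => ?_
    obtain ⟨n, h1, h2, h3⟩ := (hK (2 * (N + K + 1)) (by omega)).1
    refine ⟨n, ⟨⟨2 * (N + K + 1), even_two_mul _, h1, h2⟩, h3⟩, ?_⟩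
    have := hb.le_apply (x := 2 * (N + K + 1))
    omega
  · refine Set.infinite_of_forall_exists_gt fun N => ?_
    obtain ⟨n, h1, h2, h3⟩ := (hK (2 * (N + K + 1) + 1) (by omega)).1
    refine ⟨n, ⟨?_, h3⟩, ?_⟩
    · rintro ⟨k', hk', h4, h5⟩
      have h6 := un_HS_block b hb _ _ n h1 h2 h4 h5
      rw [← h6] at hk'
      rw [Nat.even_iff] at hk'
      omega
    · have := hb.le_apply (x := 2 * (N + K + 1) + 1)
      omega

end Pool.Agent.Work.MP_674062_gt.Un
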