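import Pool.Agent.Work.MP_674062_gt.Un.Stmts

/-!
# MP_674062_gt, block Un, item HU: the Hurewicz property
-/

open Set Filter

namespace Pool.Agent.Work.MP_674062_gt.Un

theorem HU_union (Y : ℕ → Set ℝ) (hY : ∀ n, Hurewicz (Y n)) : Hurewicz (⋃ n, Y n) := by
  intro 𝒰 hop hcov
  have h1 : ∀ n, ∃ ℱ : ℕ → Set (Set ℝ), (∀ k, ℱ k ⊆ 𝒰 k ∧ (ℱ k).Finite) ∧
      ∀ x ∈ Y n, ∀ᶠ k in atTop, x ∈ ⋃₀ ℱ k :=
    fun n => hY n 𝒰 hop fun k => (Set.subset_iUnion Y n).trans (hcov k)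
  choose ℱ hF hx using h1
  refine ⟨fun k => ⋃ n ∈ Set.Iic k, ℱ n k, ?_, ?_⟩
  · intro k
    refine ⟨Set.iUnion₂_subset fun n _ => (hF n k).1, ?_⟩
    exact Set.Finite.biUnion (Set.finite_Iic k) fun n _ => (hF n k).2
  · intro x hxY
    obtain ⟨n, hn⟩ := Set.mem_iUnion.mp hxY
    filter_upwards [hx n x hn, eventually_ge_atTop n] with k hk hnk
    obtain ⟨U, hU, hxU⟩ := Set.mem_sUnion.mp hk
    exact Set.mem_sUnion.mpr ⟨U, Set.mem_iUnion₂.mpr ⟨n, hnk, hU⟩, hxU⟩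

theorem HU_single (x : ℝ) : Hurewicz {x} := by
  intro 𝒰 _ hcov
  have h1 : ∀ k, ∃ U ∈ 𝒰 k, x ∈ U := fun k => Set.mem_sUnion.mp (hcov k rfl)
  choose U hU hxU using h1
  refine ⟨fun k => {U k}, fun k => ⟨Set.singleton_subset_iff.mpr (hU k), Set.finite_singleton _⟩,
    ?_⟩
  intro y hy
  rw [Set.mem_singleton_iff] at hy
  subst hy
  exact Eventually.of_forall fun k => Set.mem_sUnion.mpr ⟨U k, rfl, hxU k⟩

/-- HU. The Hurewicz property. -/
theorem un_HU : StHU := by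
  refine ⟨HU_union, ?_, ?_⟩
  · intro Y hY
    rcases Y.eq_empty_or_nonempty with h0 | h0
    · subst h0
      intro 𝒰 _ _
      exact ⟨fun _ => ∅, fun k => ⟨Set.empty_subset _, Set.finite_empty⟩,
        fun x hx => absurd hx (Set.notMem_empty x)⟩
    · obtain ⟨f, hf⟩ := hY.exists_eq_range h0
      have h1 : Y = ⋃ n, {f n} := by
        rw [hf]
        ext x
        rw [Set.mem_iUnion, Set.mem_range]
        constructor
        · rintro ⟨n, hn⟩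
          exact ⟨n, hn.symm⟩
        · rintro ⟨n, hn⟩
          exact ⟨n, (Set.mem_singleton_iff.mp hn).symm⟩
      rw [h1]
      exact HU_union _ fun n => HU_single (f n)
  · intro Y hY 𝒰 hop hcov
    obtain ⟨ℱ, hF, hx⟩ := hY 𝒰 hop hcov
    exact ⟨ℱ, hF, fun x hxY => (hx x hxY).exists⟩

end Pool.Agent.Work.MP_674062_gt.Un
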