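import Pool.Agent.Work.MP_674062_gt.Un.Stmts

/-!
# Block Un, item INC: increasing unions of Menger sets

Author: helper5.
-/

open Set Filter Cardinal

namespace Pool.Agent.Work.MP_674062_gt.Un

/-- the points `z` for which the indices in `[k, l)` contain one in `C` and one outside `C` -/
def INC_P (W : ℕ → Set ℝ) (C : Set ℕ) (k l : ℕ) : Set ℝ :=
  {z | (∃ n, (k ≤ n ∧ n < l ∧ n ∈ C) ∧ z ∈ W n) ∧ ∃ n, (k ≤ n ∧ n < l ∧ n ∉ C) ∧ z ∈ W n}

theorem INC_open_ex (W : ℕ → Set ℝ) (hW : ∀ n, IsOpen (W n)) (Q : ℕ → Prop) :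
    IsOpen {z | ∃ n, Q n ∧ z ∈ W n} := by
  have e : {z | ∃ n, Q n ∧ z ∈ W n} = ⋃ n ∈ {n | Q n}, W n := by
    ext z
    simp
  rw [e]
  exact isOpen_biUnion fun n _ => hW n

theorem INC_P_open (W : ℕ → Set ℝ) (hW : ∀ n, IsOpen (W n)) (C : Set ℕ) (k l : ℕ) :
    IsOpen (INC_P W C k l) :=
  (INC_open_ex W hW _).inter (INC_open_ex W hW _)

theorem INC_P_mono (W : ℕ → Set ℝ) (C : Set ℕ) {k l k' l' : ℕ} (hk : k' ≤ k) (hl : l ≤ l') :
    INC_P W C k l ⊆ INC_P W C k' l' := by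
  rintro z ⟨⟨n, ⟨a1, a2, a3⟩, a4⟩, m, ⟨c1, c2, c3⟩, c4⟩
  exact ⟨⟨n, ⟨hk.trans a1, a2.trans_le hl, a3⟩, a4⟩, m, ⟨hk.trans c1, c2.trans_le hl, c3⟩, c4⟩

theorem INC_P_ev (W : ℕ → Set ℝ) (C : Set ℕ) (x : ℝ) (h1 : {n | n ∈ C ∧ x ∈ W n}.Infinite)
    (h2 : {n | n ∉ C ∧ x ∈ W n}.Infinite) (k : ℕ) : ∀ᶠ l in atTop, x ∈ INC_P W C k l := by
  obtain ⟨n, ⟨hn1, hn2⟩, hn3⟩ := h1.exists_gt k
  obtain ⟨m, ⟨hm1, hm2⟩, hm3⟩ := h2.exists_gt k
  filter_upwards [eventually_gt_atTop (max n m)] with l hl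
  have l1 : n < l := lt_of_le_of_lt (le_max_left _ _) hl
  have l2 : m < l := lt_of_le_of_lt (le_max_right _ _) hl
  exact ⟨⟨n, ⟨hn3.le, l1, hn1⟩, hn2⟩, m, ⟨hm3.le, l2, hm1⟩, hm2⟩

/-- the covers to which the selection is applied -/
def INC_O (W : ℕ → Set ℝ) (C : ℕ → Set ℕ) (i k l : ℕ) : Set ℝ :=
  {z | k < i ∨ ∃ p, (k ≤ p ∧ p ≤ l) ∧ ∀ m ∈ Icc i k, z ∈ INC_P W (C m) k p ∩ INC_P W (C m) p l}

theorem INC_O_open (W : ℕ → Set ℝ) (hW : ∀ n, IsOpen (W n)) (C : ℕ → Set ℕ) (i k l : ℕ) :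
    IsOpen (INC_O W C i k l) := by
  have e : INC_O W C i k l = {z | k < i} ∪ ⋃ p ∈ {p | k ≤ p ∧ p ≤ l}, ⋂ m ∈ Icc i k,
      (INC_P W (C m) k p ∩ INC_P W (C m) p l) := by
    ext z
    simp only [INC_O, mem_setOf_eq, mem_union, mem_iUnion, mem_iInter, exists_prop]
  rw [e]
  refine IsOpen.union ?_ ?_
  · by_cases h : k < i
    · simp [h]
    · simp [h]
  · exact isOpen_biUnion fun p _ => (finite_Icc i k).isOpen_biInter fun m _ =>
      (INC_P_open W hW _ _ _).inter (INC_P_open W hW _ _ _)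

theorem INC_O_mono (W : ℕ → Set ℝ) (C : ℕ → Set ℕ) (i k : ℕ) : Monotone (INC_O W C i k) := by
  intro l l' hl z hz
  rcases hz with hz | ⟨p, ⟨h1, h2⟩, h3⟩
  · exact Or.inl hz
  · exact Or.inr ⟨p, ⟨h1, h2.trans hl⟩, fun m hm =>
      ⟨(h3 m hm).1, INC_P_mono W (C m) le_rfl hl (h3 m hm).2⟩⟩

theorem INC_block (b : ℕ → ℕ) (hb : StrictMono b) (k : ℕ) (hk : b 0 ≤ k) :
    ∃ j, b j ≤ k ∧ k < b (j + 1) := by
  have hex : ∃ j, k < b j := ⟨k + 1, lt_of_lt_of_le (Nat.lt_succ_self k) (hb.le_apply)⟩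
  classical
  have h1 := Nat.find_spec hex
  have h2 : Nat.find hex ≠ 0 := by
    intro h
    rw [h] at h1
    omega
  obtain ⟨j, hj⟩ := Nat.exists_eq_succ_of_ne_zero h2
  refine ⟨j, ?_, ?_⟩
  · have := Nat.find_min hex (m := j) (by omega)
    omega
  · rw [hj] at h1
    exact h1

theorem un_INC (hSELM : StSELM) : StINC := by
  intro X hX hM hS W hW hL
  have hC : ∀ m, ∃ C : Set ℕ, ∀ x ∈ X m, {n | n ∈ C ∧ x ∈ W n}.Infinite ∧
      {n | n ∉ C ∧ x ∈ W n}.Infinite := fun m =>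
    hS m W hW fun x hx => hL x (mem_iUnion.2 ⟨m, hx⟩)
  choose C hC using hC
  have hsel : ∀ i, ∃ h : ℕ → ℕ, ∀ x ∈ X i, ∃ᶠ k in atTop, x ∈ INC_O W C i k (h k) := by
    intro i
    refine hSELM (X i) (INC_O W C i) (hM i) (fun k l => INC_O_open W hW C i k l)
      (fun k => INC_O_mono W C i k) ?_
    intro k x hx
    rw [mem_iUnion]
    by_cases hki : k < i
    · exact ⟨0, Or.inl hki⟩
    · have ev : ∀ q : ℕ, ∀ᶠ l in atTop, ∀ m ∈ Icc i k, x ∈ INC_P W (C m) q l := by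
        intro q
        rw [eventually_all_finite (finite_Icc i k)]
        intro m hm
        have hxm : x ∈ X m := hX hm.1 hx
        exact INC_P_ev W (C m) x (hC m x hxm).1 (hC m x hxm).2 q
      obtain ⟨p, hp1, hp2⟩ := ((ev k).and (eventually_ge_atTop k)).exists
      obtain ⟨l, hl1, hl2⟩ := ((ev p).and (eventually_ge_atTop p)).exists
      exact ⟨l, Or.inr ⟨p, ⟨hp2, hl2⟩, fun m hm => ⟨hp1 m hm, hl1 m hm⟩⟩⟩
  choose hh hhh using hsel
  obtain ⟨h, hhdef⟩ : ∃ h : ℕ → ℕ, ∀ k, h k =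
      k + 1 + ∑ j ∈ Finset.range (k + 1), ∑ i ∈ Finset.range (j + 1), hh i j := ⟨_, fun _ => rfl⟩
  have hmono : StrictMono h := by
    apply strictMono_nat_of_lt_succ
    intro k
    rw [hhdef, hhdef, Finset.sum_range_succ _ (k + 1)]
    omega
  have hgt : ∀ k, k < h k := by
    intro k
    rw [hhdef]
    omega
  have hge : ∀ i k, i ≤ k → hh i k ≤ h k := by
    intro i k hik
    have e1 : hh i k ≤ ∑ i ∈ Finset.range (k + 1), hh i k :=
      Finset.single_le_sum (f := fun i => hh i k) (fun _ _ => Nat.zero_le _)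
        (Finset.mem_range.2 (by omega))
    have e2 : ∑ i ∈ Finset.range (k + 1), hh i k ≤
        ∑ j ∈ Finset.range (k + 1), ∑ i ∈ Finset.range (j + 1), hh i j :=
      Finset.single_le_sum (f := fun j => ∑ i ∈ Finset.range (j + 1), hh i j)
        (fun _ _ => Nat.zero_le _) (Finset.mem_range.2 (by omega))
    rw [hhdef]
    omega
  obtain ⟨b, hb0, hbs⟩ : ∃ b : ℕ → ℕ, b 0 = 1 ∧ ∀ j, b (j + 1) = h (b j) :=
    ⟨fun j => h^[j] 1, rfl, fun j => Function.iterate_succ_apply' h j 1⟩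
  have hbmono : StrictMono b := by
    apply strictMono_nat_of_lt_succ
    intro j
    rw [hbs]
    exact hgt _
  have hbge : ∀ j, j + 1 ≤ b j := by
    intro j
    induction j with
    | zero => rw [hb0]
    | succ j ih =>
      have := hbmono (Nat.lt_succ_self j)
      have h' : b j < b (j + 1) := this
      omega
  have key : ∀ i, ∀ z ∈ X i, ∀ N, ∃ j, N ≤ j ∧ z ∈ INC_P W (C j) (b j) (b (j + 1)) := by
    intro i z hz N
    obtain ⟨k, hk1, hk2, hk3⟩ := ((hhh i z hz).and_eventually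
      ((eventually_ge_atTop i).and (eventually_ge_atTop (b (i + N))))).exists
    have hk4 : z ∈ INC_O W C i k (h k) := INC_O_mono W C i k (hge i k hk2) hk1
    rcases hk4 with hlt | ⟨p, ⟨hp1, hp2⟩, hp3⟩
    · omega
    obtain ⟨j, hj1, hj2⟩ := INC_block b hbmono k
      ((hbmono.monotone (Nat.zero_le (i + N))).trans hk3)
    have hj3 : i + N < j + 1 := hbmono.lt_iff_lt.1 (hk3.trans_lt hj2)
    have hj4 := hbge j
    have hk5 : h k ≤ b (j + 1 + 1) := by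
      rw [hbs (j + 1)]
      exact hmono.monotone hj2.le
    by_cases hpj : p ≤ b (j + 1)
    · refine ⟨j, by omega, ?_⟩
      exact INC_P_mono W (C j) hj1 hpj (hp3 j ⟨by omega, by omega⟩).1
    · refine ⟨j + 1, by omega, ?_⟩
      exact INC_P_mono W (C (j + 1)) (by omega) hk5 (hp3 (j + 1) ⟨by omega, by omega⟩).2
  have uniq : ∀ j j' n, b j ≤ n → n < b (j + 1) → b j' ≤ n → n < b (j' + 1) → j = j' := by
    intro j j' n a1 a2 a3 a4
    have e1 : j < j' + 1 := hbmono.lt_iff_lt.1 (a1.trans_lt a4)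
    have e2 : j' < j + 1 := hbmono.lt_iff_lt.1 (a3.trans_lt a2)
    omega
  refine ⟨{n | ∃ j, b j ≤ n ∧ n < b (j + 1) ∧ n ∈ C j}, ?_⟩
  intro z hz
  obtain ⟨i, hi⟩ := mem_iUnion.1 hz
  constructor
  · apply infinite_of_forall_exists_gt
    intro N
    obtain ⟨j, hj, ⟨n, ⟨n1, n2, n3⟩, n4⟩, -⟩ := key i z hi N
    have := hbge j
    exact ⟨n, ⟨⟨j, n1, n2, n3⟩, n4⟩, by omega⟩
  · apply infinite_of_forall_exists_gt
    intro N
    obtain ⟨j, hj, -, ⟨n, ⟨n1, n2, n3⟩, n4⟩⟩ := key i z hi N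
    have := hbge j
    refine ⟨n, ⟨?_, n4⟩, by omega⟩
    rintro ⟨j', a1, a2, a3⟩
    have e := uniq j j' n n1 n2 a1 a2
    rw [← e] at a3
    exact n3 a3

end Pool.Agent.Work.MP_674062_gt.Un
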