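import Pool.Agent.Work.MP_674062_gt.Un.Stmts

/-!
# Block Un, item SELH: Hurewicz selection
-/

open Set Filter Cardinal

namespace Pool.Agent.Work.MP_674062_gt.Un

/-- finitely many members of an increasing sequence lie in one of them -/
theorem SELH_fin (O : ℕ → Set ℝ) (hO : Monotone O) (F : Set (Set ℝ)) (hF : F ⊆ Set.range O)
    (hfin : F.Finite) : ∃ h : ℕ, ⋃₀ F ⊆ O h := by
  choose! l hl using fun (U : Set ℝ) (hU : U ∈ F) => hF hU
  obtain ⟨h, hh⟩ := (hfin.image l).bddAbove
  refine ⟨h, ?_⟩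
  rintro x ⟨U, hU, hx⟩
  have h1 : l U ≤ h := hh ⟨U, hU, rfl⟩
  rw [← hl U hU] at hx
  exact hO h1 hx

theorem un_SELH : StSELH := by
  intro X O hX hopen hmono hcov
  obtain ⟨F, hF, hx⟩ := hX (fun k => Set.range (O k))
    (by
      rintro n U ⟨l, rfl⟩
      exact hopen n l)
    (by
      intro n
      rw [Set.sUnion_range]
      exact hcov n)
  choose h hh using fun k => SELH_fin (O k) (hmono k) (F k) (hF k).1 (hF k).2
  exact ⟨h, fun x hxX => (hx x hxX).mono fun k hk => hh k hk⟩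

end Pool.Agent.Work.MP_674062_gt.Un
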