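import Pool.Agent.Work.MP_674062_gt.Un.Stmts

/-!
# Block Un of MP_674062_gt, item SELM: Menger selection
-/

open Set Filter

namespace Pool.Agent.Work.MP_674062_gt.Un

/-- Finitely many members of an increasing sequence of sets lie in one of them. -/
theorem SELM_bound {f : ℕ → Set ℝ} (hf : Monotone f) {F : Set (Set ℝ)} (hF : F.Finite)
    (hsub : F ⊆ Set.range f) : ∃ N, ⋃₀ F ⊆ f N := by
  choose i hi using fun U : F => hsub U.2
  have := hF.to_subtype
  obtain ⟨N, hN⟩ := (Set.finite_range i).bddAbove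
  refine ⟨N, Set.sUnion_subset fun U hU => ?_⟩
  have h1 : f (i ⟨U, hU⟩) = U := hi ⟨U, hU⟩
  rw [← h1]
  exact hf (hN ⟨⟨U, hU⟩, rfl⟩)

theorem un_SELM : StSELM := by
  intro X O hX hO hmono hcov
  have h1 : ∀ r : ℕ, ∃ h : ℕ → ℕ, ∀ x ∈ X, ∃ n, x ∈ O (n + r) (h n) := by
    intro r
    obtain ⟨F, hF, hFX⟩ := hX (fun n => Set.range (O (n + r)))
      (fun n U hU => by
        obtain ⟨l, rfl⟩ := hU
        exact hO _ _)
      (fun n => by
        rw [Set.sUnion_range]
        exact hcov _)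
    choose h hh using fun n => SELM_bound (hmono (n + r)) (hF n).2 (hF n).1
    refine ⟨h, fun x hx => ?_⟩
    obtain ⟨n, hn⟩ := hFX x hx
    exact ⟨n, hh n hn⟩
  choose h hh using h1
  refine ⟨fun k => (Finset.range (k + 1)).sup fun r => h r (k - r), fun x hx => ?_⟩
  rw [frequently_atTop]
  intro r
  obtain ⟨n, hn⟩ := hh r x hx
  refine ⟨n + r, Nat.le_add_left _ _, ?_⟩
  refine hmono (n + r) ?_ hn
  have h2 := Finset.le_sup (f := fun s => h s (n + r - s))
    (Finset.mem_range.2 (show r < n + r + 1 by omega))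
  simpa using h2

end Pool.Agent.Work.MP_674062_gt.Un
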