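import Pool.Agent.Work.MP_674062_gt.Un.Stmts

/-!
# Block Un, item SEQ1: the sequence form implies Split(Λ,Λ)
-/

open Set Filter Cardinal

namespace Pool.Agent.Work.MP_674062_gt.Un

lemma SEQ1_of_subset {Z : Type} [TopologicalSpace Z] {𝒰 𝒱 : Set (Set Z)}
    (h : IsLargeCover 𝒰) (hs : 𝒱 ⊆ 𝒰) (hx : ∀ x : Z, {U | U ∈ 𝒱 ∧ x ∈ U}.Infinite) :
    IsLargeCover 𝒱 := by
  refine ⟨fun U hU => h.1 U (hs hU), ?_, fun hU => h.2.2.1 (hs hU), hx⟩
  rw [eq_univ_iff_forall]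
  intro x
  obtain ⟨U, hU, hxU⟩ := (hx x).nonempty
  exact ⟨U, hU, hxU⟩

lemma SEQ1_exists_countable_large {Z : Type} [TopologicalSpace Z] [SecondCountableTopology Z]
    {𝒰 : Set (Set Z)} (hU : ∀ U ∈ 𝒰, IsOpen U) (hx : ∀ x : Z, {U | U ∈ 𝒰 ∧ x ∈ U}.Infinite) :
    ∃ 𝒱 ⊆ 𝒰, 𝒱.Countable ∧ ∀ x : Z, {U | U ∈ 𝒱 ∧ x ∈ U}.Infinite := by
  classical
  have key : ∀ S : Set (Set Z), ∃ T : Set (Set Z), S ⊆ 𝒰 → T.Countable ∧ T ⊆ S ∧ ⋃₀ T = ⋃₀ S := by
    intro S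
    by_cases hS : S ⊆ 𝒰
    · obtain ⟨T, h1, h2, h3⟩ := TopologicalSpace.isOpen_sUnion_countable S (fun s hs => hU s (hS hs))
      exact ⟨T, fun _ => ⟨h1, h2, h3⟩⟩
    · exact ⟨∅, fun h => absurd h hS⟩
  choose T hT using key
  let acc : ℕ → Set (Set Z) := fun n => Nat.rec ∅ (fun _ a => a ∪ T (𝒰 \ a)) n
  have hacc0 : acc 0 = ∅ := rfl
  have hacc1 : ∀ n, acc (n + 1) = acc n ∪ T (𝒰 \ acc n) := fun n => rfl
  have hTn : ∀ n, (T (𝒰 \ acc n)).Countable ∧ T (𝒰 \ acc n) ⊆ 𝒰 \ acc n ∧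
      ⋃₀ T (𝒰 \ acc n) = ⋃₀ (𝒰 \ acc n) := fun n => hT _ sdiff_subset
  have hsub : ∀ n, acc n ⊆ 𝒰 := by
    intro n
    induction n with
    | zero => rw [hacc0]; exact empty_subset _
    | succ n ih => rw [hacc1]; exact union_subset ih ((hTn n).2.1.trans sdiff_subset)
  have hcnt : ∀ n, (acc n).Countable := by
    intro n
    induction n with
    | zero => rw [hacc0]; exact countable_empty
    | succ n ih => rw [hacc1]; exact ih.union (hTn n).1
  have hmono : Monotone acc := monotone_nat_of_le_succ fun n => by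
    rw [hacc1]; exact subset_union_left
  refine ⟨⋃ n, acc n, iUnion_subset hsub, countable_iUnion hcnt, ?_⟩
  intro x
  by_cases h : ∃ n, x ∉ ⋃₀ (𝒰 \ acc n)
  · obtain ⟨n, hn⟩ := h
    refine (hx x).mono ?_
    rintro U ⟨hU1, hU2⟩
    refine ⟨mem_iUnion.2 ⟨n, ?_⟩, hU2⟩
    by_contra hcon
    exact hn ⟨U, ⟨hU1, hcon⟩, hU2⟩
  · push Not at h
    have : ∀ n, ∃ U, U ∈ T (𝒰 \ acc n) ∧ x ∈ U := by
      intro n
      have := h n
      rw [← (hTn n).2.2] at this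
      exact this
    choose u hu hxu using this
    have hinj : Function.Injective u := by
      have hlt : ∀ a b, a < b → u a ≠ u b := by
        intro a b hab heq
        have h1 : u a ∈ acc b := hmono (Nat.succ_le_of_lt hab) (by
          rw [Nat.succ_eq_add_one, hacc1]; exact Or.inr (hu a))
        have h2 := (hTn b).2.1 (hu b)
        rw [← heq] at h2
        exact h2.2 h1
      intro a b hab
      rcases lt_trichotomy a b with h' | h' | h'
      · exact absurd hab (hlt a b h')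
      · exact h'
      · exact absurd hab.symm (hlt b a h')
    refine Set.Infinite.mono ?_ (Set.infinite_range_of_injective hinj)
    rintro _ ⟨n, rfl⟩
    exact ⟨mem_iUnion.2 ⟨n + 1, by rw [hacc1]; exact Or.inr (hu n)⟩, hxu n⟩

theorem un_SEQ1 : StSEQ1 := by
  intro X h 𝒰 h𝒰
  rcases isEmpty_or_nonempty X with hemp | ⟨⟨x0⟩⟩
  · refine ⟨∅, ∅, empty_subset _, empty_subset _, disjoint_bot_left, ?_, ?_⟩
    · exact SEQ1_of_subset h𝒰 (empty_subset _) (fun x => (hemp.false x).elim)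
    · exact SEQ1_of_subset h𝒰 (empty_subset _) (fun x => (hemp.false x).elim)
  obtain ⟨𝒰', hsub, hcnt, hlarge⟩ := SEQ1_exists_countable_large h𝒰.1 h𝒰.2.2.2
  have hinf : 𝒰'.Infinite := (hlarge x0).mono fun U hU => hU.1
  have : Countable 𝒰' := hcnt.to_subtype
  have : Infinite 𝒰' := hinf.to_subtype
  obtain ⟨hden⟩ := nonempty_denumerable 𝒰'
  let v : ℕ ≃ 𝒰' := (Denumerable.eqv 𝒰').symm
  have hopen : ∀ n, ∃ O : Set ℝ, IsOpen O ∧ Subtype.val ⁻¹' O = (v n : Set X) := fun n =>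
    isOpen_induced_iff.1 (h𝒰.1 _ (hsub (v n).2))
  choose O hO hOv using hopen
  have hmem : ∀ (x : ℝ) (hx : x ∈ X) (n : ℕ), x ∈ O n ↔ (⟨x, hx⟩ : X) ∈ (v n : Set X) := by
    intro x hx n
    rw [← hOv n]; rfl
  obtain ⟨B, hB⟩ := h O hO (by
    intro x hx
    by_contra hfin
    rw [not_infinite] at hfin
    apply hlarge ⟨x, hx⟩
    refine (hfin.image (fun n => (v n : Set X))).subset ?_
    rintro U ⟨hU, hxU⟩
    refine ⟨v.symm ⟨U, hU⟩, ?_, by simp⟩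
    change x ∈ O (v.symm ⟨U, hU⟩)
    rw [hmem x hx]
    simpa using hxU)
  have hlargeB : ∀ (D : Set ℕ), (∀ x ∈ X, {n | n ∈ D ∧ x ∈ O n}.Infinite) →
      IsLargeCover ((fun n => (v n : Set X)) '' D) := by
    intro D hD
    refine SEQ1_of_subset h𝒰 ?_ ?_
    · rintro _ ⟨n, -, rfl⟩; exact hsub (v n).2
    · rintro ⟨x, hx⟩
      have hinj : Function.Injective (fun n => (v n : Set X)) :=
        Subtype.val_injective.comp v.injective
      refine ((hD x hx).image hinj.injOn).mono ?_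
      rintro _ ⟨n, ⟨hn1, hn2⟩, rfl⟩
      exact ⟨⟨n, hn1, rfl⟩, (hmem x hx n).1 hn2⟩
  refine ⟨_, _, ?_, ?_, ?_, hlargeB B fun x hx => (hB x hx).1,
    hlargeB Bᶜ fun x hx => (hB x hx).2⟩
  · rintro _ ⟨n, -, rfl⟩; exact hsub (v n).2
  · rintro _ ⟨n, -, rfl⟩; exact hsub (v n).2
  · rw [Set.disjoint_left]
    rintro _ ⟨n, hn, rfl⟩ ⟨m, hm, hmn⟩
    have : m = n := v.injective (Subtype.val_injective hmn)
    subst this
    exact hm hn

end Pool.Agent.Work.MP_674062_gt.Un
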