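import Pool.Agent.Work.MP_674062_gt.Un.Stmts

/-!
MP_674062_gt, block Un, item SEQ2.
-/

set_option autoImplicit false

open Set Filter Topology

namespace Pool.Agent.Work.MP_674062_gt.Un

/-- The points of `X` with a neighbourhood containing finitely many points of `X` are countably
many. -/
theorem SEQ2_countable (X : Set ℝ) :
    (X \ {x | ∀ G : Set ℝ, IsOpen G → x ∈ G → (G ∩ X).Infinite}).Countable := by
  have h1 : X \ {x | ∀ G : Set ℝ, IsOpen G → x ∈ G → (G ∩ X).Infinite} ⊆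
      ⋃ B ∈ {B | B ∈ TopologicalSpace.countableBasis ℝ ∧ (B ∩ X).Finite}, B ∩ X := by
    rintro x ⟨hx, hx2⟩
    rw [Set.mem_ofPred_eq] at hx2
    push Not at hx2
    obtain ⟨G, hG, hxG, hf⟩ := hx2
    obtain ⟨B, hB, hxB, hBG⟩ :=
      (TopologicalSpace.isBasis_countableBasis ℝ).exists_subset_of_mem_open hxG hG
    simp only [Set.mem_iUnion]
    exact ⟨B, ⟨hB, hf.subset (Set.inter_subset_inter_left _ hBG)⟩, hxB, hx⟩
  refine Set.Countable.mono h1 (Set.Countable.biUnion ?_ ?_)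
  · exact (TopologicalSpace.countable_countableBasis ℝ).mono fun B hB => hB.1
  · intro B hB
    exact hB.2.countable

/-- The recursion: a point of `T i` outside given finite sets. -/
theorem SEQ2_pick (A F : Set ℝ) (hA : A.Infinite) (hF : F.Finite) (B : Set ℝ) (hB : B.Finite)
    (S : Set (Set ℝ)) (hS : S.Finite) :
    ∃ z ∈ A, z ∉ F ∧ z ∉ B ∧ (A ∪ F) \ {z} ∉ S := by
  have h1 : {z | z ∈ A ∧ (A ∪ F) \ {z} ∈ S}.Finite := by
    refine Set.Finite.of_finite_image (f := fun z => (A ∪ F) \ {z}) (hS.subset ?_) ?_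
    · rintro _ ⟨z, hz, rfl⟩
      exact hz.2
    · intro z hz w hw h
      by_contra hne
      have h2 : z ∈ (A ∪ F) \ {w} := ⟨Or.inl hz.1, hne⟩
      have h3 : z ∈ (A ∪ F) \ {z} := by
        have h4 : (A ∪ F) \ {z} = (A ∪ F) \ {w} := h
        rw [h4]
        exact h2
      exact h3.2 rfl
  obtain ⟨z, hz, hz2⟩ := (hA.sdiff ((hF.union hB).union h1)).nonempty
  refine ⟨z, hz, fun h => hz2 (Or.inl (Or.inl h)), fun h => hz2 (Or.inl (Or.inr h)), fun h => ?_⟩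
  exact hz2 (Or.inr ⟨hz, h⟩)

/-- The recursion. -/
theorem SEQ2_rec (A F : ℕ → Set ℝ) (hA : ∀ i, (A i).Infinite) (hF : ∀ i, (F i).Finite) :
    ∃ z : ℕ → ℝ, (∀ i, z i ∈ A i ∧ z i ∉ F i) ∧ Function.Injective z ∧
      Function.Injective (fun i => (A i ∪ F i) \ {z i}) := by
  choose pick hp using fun (i : ℕ) (p : {p : Set ℝ × Set (Set ℝ) // p.1.Finite ∧ p.2.Finite}) =>
    SEQ2_pick (A i) (F i) (hA i) (hF i) p.1.1 p.2.1 p.1.2 p.2.2
  let st : ℕ → {p : Set ℝ × Set (Set ℝ) // p.1.Finite ∧ p.2.Finite} := fun n =>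
    Nat.rec ⟨(∅, ∅), Set.finite_empty, Set.finite_empty⟩
      (fun i p => ⟨(insert (pick i p) p.1.1, insert ((A i ∪ F i) \ {pick i p}) p.1.2),
        p.2.1.insert _, p.2.2.insert _⟩) n
  have hst : ∀ i, (st (i + 1)).1 = (insert (pick i (st i)) (st i).1.1,
      insert ((A i ∪ F i) \ {pick i (st i)}) (st i).1.2) := fun i => rfl
  have hmem : ∀ j d, pick j (st j) ∈ (st (j + 1 + d)).1.1 ∧
      (A j ∪ F j) \ {pick j (st j)} ∈ (st (j + 1 + d)).1.2 := by
    intro j d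
    induction d with
    | zero =>
      rw [Nat.add_zero, hst]
      exact ⟨Set.mem_insert _ _, Set.mem_insert _ _⟩
    | succ d ih =>
      rw [← Nat.add_assoc, hst]
      exact ⟨Set.mem_insert_of_mem _ ih.1, Set.mem_insert_of_mem _ ih.2⟩
  have hlt : ∀ j i, j < i → pick j (st j) ≠ pick i (st i) ∧
      (A j ∪ F j) \ {pick j (st j)} ≠ (A i ∪ F i) \ {pick i (st i)} := by
    intro j i hji
    obtain ⟨d, rfl⟩ := Nat.exists_eq_add_of_lt hji
    have h1 := hmem j d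
    have h2 := hp (j + 1 + d) (st (j + 1 + d))
    have e : j + d + 1 = j + 1 + d := by omega
    rw [e]
    refine ⟨fun h => h2.2.2.1 ?_, fun h => h2.2.2.2 ?_⟩
    · rw [← h]
      exact h1.1
    · rw [← h]
      exact h1.2
  refine ⟨fun i => pick i (st i), fun i => ⟨(hp i (st i)).1, (hp i (st i)).2.1⟩, ?_, ?_⟩
  · intro i j h
    rcases lt_trichotomy i j with h1 | h1 | h1
    · exact absurd h (hlt i j h1).1
    · exact h1
    · exact absurd h.symm (hlt j i h1).1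
  · intro i j h
    rcases lt_trichotomy i j with h1 | h1 | h1
    · exact absurd h (hlt i j h1).2
    · exact h1
    · exact absurd h.symm (hlt j i h1).2

/-- **SEQ2.** -/
theorem un_SEQ2 : StSEQ2 := by
  intro X hX
  have hcount := SEQ2_countable X
  refine ⟨hcount, ?_⟩
  set P : Set ℝ := {x | ∀ G : Set ℝ, IsOpen G → x ∈ G → (G ∩ X).Infinite} with hP
  intro W hW hlarge
  rcases (X ∩ P).eq_empty_or_nonempty with he | ⟨x₀, hx₀⟩
  · refine ⟨∅, fun x hx => ?_⟩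
    rw [he] at hx
    exact absurd hx (Set.notMem_empty x)
  -- the indices which meet `Z`
  set N : Set ℕ := {n | (W n ∩ (X ∩ P)).Nonempty} with hN
  have hNinf : N.Infinite := (hlarge x₀ hx₀).mono fun n hn => ⟨x₀, hn, hx₀⟩
  obtain ⟨σ, hσ, hσr⟩ : ∃ σ : ℕ → ℕ, Function.Injective σ ∧ Set.range σ = N := by
    refine ⟨Nat.nth (· ∈ N), (Nat.nth_strictMono hNinf).injective, ?_⟩
    exact Nat.range_nth_of_infinite hNinf
  have hσN : ∀ i, σ i ∈ N := fun i => hσr ▸ Set.mem_range_self i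
  have hA : ∀ i, (W (σ i) ∩ X).Infinite := by
    intro i
    obtain ⟨y, hy1, hy2⟩ := hσN i
    exact hy2.2 (W (σ i)) (hW _) hy1
  -- the finite sets
  obtain ⟨g, hg⟩ : ∃ g : ℝ → ℕ, Set.InjOn g (X \ P) := Set.countable_iff_exists_injOn.1 hcount
  set F : ℕ → Set ℝ := fun i => {x | x ∈ X \ P ∧ g x ≤ i} with hFdef
  have hF : ∀ i, (F i).Finite := by
    intro i
    refine Set.Finite.of_finite_image (f := g) ((Set.finite_Iic i).subset ?_)
      (hg.mono fun x hx => hx.1)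
    rintro _ ⟨x, hx, rfl⟩
    exact hx.2
  obtain ⟨z, hz, hzinj, hVinj⟩ := SEQ2_rec (fun i => W (σ i) ∩ X) F hA hF
  set V : ℕ → Set ℝ := fun i => ((W (σ i) ∩ X) ∪ F i) \ {z i} with hV
  have hVX : ∀ i, V i ⊆ X := by
    rintro i x ⟨h | h, _⟩
    · exact h.2
    · exact h.1.1
  let V' : ℕ → Set X := fun i => {x | (x : ℝ) ∈ V i}
  have hV'inj : Function.Injective V' := by
    intro i j h
    apply hVinj
    ext x
    constructor
    · intro hx
      have h1 : (⟨x, hVX i hx⟩ : X) ∈ V' i := hx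
      rw [h] at h1
      exact h1
    · intro hx
      have h1 : (⟨x, hVX j hx⟩ : X) ∈ V' j := hx
      rw [← h] at h1
      exact h1
  -- isolated points
  have hiso : ∀ y : X, (y : ℝ) ∈ X \ P → IsOpen ({y} : Set X) := by
    intro y hy
    have hy2 := hy.2
    rw [hP, Set.mem_ofPred_eq] at hy2
    push Not at hy2
    obtain ⟨G, hG, hyG, hf⟩ := hy2
    refine isOpen_singleton_of_finite_mem_nhds y (s := {x : X | (x : ℝ) ∈ G}) ?_ ?_
    · exact (hG.preimage continuous_subtype_val).mem_nhds hyG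
    · refine Set.Finite.of_finite_image (f := fun x : X => (x : ℝ)) (hf.subset ?_)
        Subtype.val_injective.injOn
      rintro _ ⟨x, hx, rfl⟩
      exact ⟨hx, x.2⟩
  have hV'open : ∀ i, IsOpen (V' i) := by
    intro i
    have h1 : V' i = ((Subtype.val ⁻¹' (W (σ i)) : Set X) ∪
        ⋃ y ∈ {y : X | (y : ℝ) ∈ F i}, ({y} : Set X)) ∩ (Subtype.val ⁻¹' ({z i}ᶜ : Set ℝ)) := by
      ext x
      constructor
      · rintro ⟨h | h, h2⟩
        · exact ⟨Or.inl h.1, h2⟩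
        · refine ⟨Or.inr ?_, h2⟩
          simp only [Set.mem_iUnion]
          exact ⟨x, h, rfl⟩
      · rintro ⟨h | h, h2⟩
        · exact ⟨Or.inl ⟨h, x.2⟩, h2⟩
        · simp only [Set.mem_iUnion] at h
          obtain ⟨y, hy, hxy⟩ := h
          rw [Set.mem_singleton_iff] at hxy
          rw [hxy]
          refine ⟨Or.inr hy, ?_⟩
          rw [← hxy]
          exact h2
    rw [h1]
    refine (((hW _).preimage continuous_subtype_val).union ?_).inter
      ((isClosed_singleton.isOpen_compl).preimage continuous_subtype_val)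
    exact isOpen_biUnion fun y hy => hiso y hy.1
  -- every point lies in infinitely many `V i`
  have hinf : ∀ x : X, {i | x ∈ V' i}.Infinite := by
    intro x
    by_cases hx : (x : ℝ) ∈ P
    · have h1 : {i | (x : ℝ) ∈ W (σ i)}.Infinite := by
        have h2 : {n | (x : ℝ) ∈ W n} ⊆ σ '' {i | (x : ℝ) ∈ W (σ i)} := by
          intro n hn
          have hnN : n ∈ N := ⟨x, hn, x.2, hx⟩
          rw [← hσr] at hnN
          obtain ⟨i, rfl⟩ := hnN
          exact ⟨i, hn, rfl⟩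
        exact ((hlarge x ⟨x.2, hx⟩).mono h2).of_image σ
      have h3 : {i | z i = x}.Finite :=
        Set.Subsingleton.finite fun i hi j hj => hzinj (hi.trans hj.symm)
      refine (h1.sdiff h3).mono ?_
      rintro i ⟨hi, hi2⟩
      refine ⟨Or.inl ⟨hi, x.2⟩, fun h => hi2 ?_⟩
      exact (Set.mem_singleton_iff.1 h).symm
    · refine (Set.Ici_infinite (g x)).mono fun i hi => ?_
      have hF' : (x : ℝ) ∈ F i := ⟨⟨x.2, hx⟩, hi⟩
      refine ⟨Or.inr hF', fun h => (hz i).2 ?_⟩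
      rw [← Set.mem_singleton_iff.1 h]
      exact hF'
  have hcover : IsLargeCover (Set.range V') := by
    refine ⟨?_, ?_, ?_, ?_⟩
    · rintro _ ⟨i, rfl⟩
      exact hV'open i
    · refine Set.eq_univ_of_forall fun x => ?_
      obtain ⟨i, hi⟩ := (hinf x).nonempty
      exact ⟨V' i, ⟨i, rfl⟩, hi⟩
    · rintro ⟨i, hi⟩
      have h1 : (⟨z i, (hz i).1.2⟩ : X) ∈ V' i := hi ▸ Set.mem_univ _
      exact h1.2 rfl
    · intro x
      have h1 := (hinf x).image (f := V') hV'inj.injOn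
      refine h1.mono ?_
      rintro _ ⟨i, hi, rfl⟩
      exact ⟨⟨i, rfl⟩, hi⟩
  obtain ⟨𝒱, 𝒲, hv, hw, hdisj, hvl, hwl⟩ := hX _ hcover
  -- a point of `Z` in `V i` lies in `W (σ i)`
  have hZ : ∀ x ∈ X ∩ P, ∀ i, ∀ hx : x ∈ X, (⟨x, hx⟩ : X) ∈ V' i → x ∈ W (σ i) := by
    rintro x hxZ i hx ⟨h | h, _⟩
    · exact h.1
    · exact absurd hxZ.2 h.1.2
  have key : ∀ 𝒟 : Set (Set X), 𝒟 ⊆ Set.range V' → IsLargeCover 𝒟 → ∀ x ∈ X ∩ P,
      {n | ∃ i, n = σ i ∧ V' i ∈ 𝒟 ∧ x ∈ W n}.Infinite := by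
    intro 𝒟 hD hl x hx
    have h1 := hl.2.2.2 ⟨x, hx.1⟩
    have h2 : {U | U ∈ 𝒟 ∧ (⟨x, hx.1⟩ : X) ∈ U} ⊆
        V' '' {i | V' i ∈ 𝒟 ∧ (⟨x, hx.1⟩ : X) ∈ V' i} := by
      rintro U ⟨hU, hxU⟩
      obtain ⟨i, rfl⟩ := hD hU
      exact ⟨i, ⟨hU, hxU⟩, rfl⟩
    have h3 : {i | V' i ∈ 𝒟 ∧ (⟨x, hx.1⟩ : X) ∈ V' i}.Infinite := (h1.mono h2).of_image V'
    refine (h3.image (f := σ) hσ.injOn).mono ?_
    rintro _ ⟨i, hi, rfl⟩
    exact ⟨i, rfl, hi.1, hZ x hx i hx.1 hi.2⟩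
  refine ⟨{n | ∃ i, n = σ i ∧ V' i ∈ 𝒱}, fun x hx => ⟨?_, ?_⟩⟩
  · refine (key 𝒱 hv hvl x hx).mono ?_
    rintro n ⟨i, h1, h2, h3⟩
    exact ⟨⟨i, h1, h2⟩, h3⟩
  · refine (key 𝒲 hw hwl x hx).mono ?_
    rintro n ⟨i, h1, h2, h3⟩
    refine ⟨?_, h3⟩
    rintro ⟨j, h4, h5⟩
    have h6 : i = j := hσ (h1.symm.trans h4)
    rw [← h6] at h5
    exact Set.disjoint_left.1 hdisj h5 h2

end Pool.Agent.Work.MP_674062_gt.Un
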