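import Pool.Agent.Work.MP_674062_gt.Un.Stmts

/-!
# Block Un of MP_674062_gt, item SM: a Menger set with Split and a small set
-/

set_option autoImplicit false

open Set Filter Cardinal

namespace Pool.Agent.Work.MP_674062_gt.Un

/-- both colours occur in the block `[k, l)` -/
def SM_P (C₀ : Set ℕ) (W : ℕ → Set ℝ) (k l : ℕ) : Set ℝ :=
  {z | (∃ n, k ≤ n ∧ n < l ∧ n ∈ C₀ ∧ z ∈ W n) ∧ ∃ n, k ≤ n ∧ n < l ∧ n ∉ C₀ ∧ z ∈ W n}

/-- the sets for the selection -/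
def SM_O (C₀ : Set ℕ) (W : ℕ → Set ℝ) (k l : ℕ) : Set ℝ :=
  {z | ∃ p, k ≤ p ∧ p ≤ l ∧ z ∈ SM_P C₀ W k p ∧ z ∈ SM_P C₀ W p l}

theorem SM_open_ex (W : ℕ → Set ℝ) (hW : ∀ n, IsOpen (W n)) (q : ℕ → Prop) :
    IsOpen {z | ∃ n, q n ∧ z ∈ W n} := by
  have h : {z | ∃ n, q n ∧ z ∈ W n} = ⋃ n, ⋃ (_ : q n), W n := by
    ext z
    simp
  rw [h]
  exact isOpen_iUnion fun n => isOpen_iUnion fun _ => hW n

theorem SM_P_open (C₀ : Set ℕ) (W : ℕ → Set ℝ) (hW : ∀ n, IsOpen (W n)) (k l : ℕ) :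
    IsOpen (SM_P C₀ W k l) := by
  have h1 := SM_open_ex W hW (fun n => k ≤ n ∧ n < l ∧ n ∈ C₀)
  have h2 := SM_open_ex W hW (fun n => k ≤ n ∧ n < l ∧ n ∉ C₀)
  have h : SM_P C₀ W k l = {z | ∃ n, (k ≤ n ∧ n < l ∧ n ∈ C₀) ∧ z ∈ W n} ∩
      {z | ∃ n, (k ≤ n ∧ n < l ∧ n ∉ C₀) ∧ z ∈ W n} := by
    ext z
    simp only [SM_P, Set.mem_ofPred_eq, Set.mem_inter_iff, and_assoc]
  rw [h]
  exact h1.inter h2

theorem SM_P_mono (C₀ : Set ℕ) (W : ℕ → Set ℝ) {k k' l l' : ℕ} (hk : k' ≤ k) (hl : l ≤ l') :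
    SM_P C₀ W k l ⊆ SM_P C₀ W k' l' := by
  rintro z ⟨⟨n, h1, h2, h3, h4⟩, n', g1, g2, g3, g4⟩
  exact ⟨⟨n, hk.trans h1, lt_of_lt_of_le h2 hl, h3, h4⟩,
    n', hk.trans g1, lt_of_lt_of_le g2 hl, g3, g4⟩

theorem SM_O_open (C₀ : Set ℕ) (W : ℕ → Set ℝ) (hW : ∀ n, IsOpen (W n)) (k l : ℕ) :
    IsOpen (SM_O C₀ W k l) := by
  have h : SM_O C₀ W k l = ⋃ p, ⋃ (_ : k ≤ p ∧ p ≤ l), (SM_P C₀ W k p ∩ SM_P C₀ W p l) := by
    ext z
    simp only [SM_O, Set.mem_ofPred_eq, Set.mem_iUnion, Set.mem_inter_iff, exists_prop, and_assoc]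
  rw [h]
  exact isOpen_iUnion fun p => isOpen_iUnion fun _ =>
    (SM_P_open C₀ W hW k p).inter (SM_P_open C₀ W hW p l)

theorem SM_O_mono (C₀ : Set ℕ) (W : ℕ → Set ℝ) (k : ℕ) : Monotone (SM_O C₀ W k) := by
  rintro l l' hl z ⟨p, h1, h2, h3, h4⟩
  exact ⟨p, h1, h2.trans hl, h3, SM_P_mono C₀ W le_rfl hl h4⟩

theorem SM_P_ex (C₀ : Set ℕ) (W : ℕ → Set ℝ) {x : ℝ} (h1 : {n | n ∈ C₀ ∧ x ∈ W n}.Infinite)
    (h2 : {n | n ∉ C₀ ∧ x ∈ W n}.Infinite) (k : ℕ) : ∃ p, k ≤ p ∧ x ∈ SM_P C₀ W k p := by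
  obtain ⟨n, hn, hkn⟩ := h1.exists_gt k
  obtain ⟨n', hn', hkn'⟩ := h2.exists_gt k
  exact ⟨n + n' + 1, by omega, ⟨n, hkn.le, by omega, hn.1, hn.2⟩,
    n', hkn'.le, by omega, hn'.1, hn'.2⟩

theorem SM_block {b : ℕ → ℕ} (hb : StrictMono b) (h0 : b 0 = 0) (n : ℕ) :
    ∃ j, b j ≤ n ∧ n < b (j + 1) := by
  have hex : ∃ j, n < b (j + 1) := ⟨n, lt_of_lt_of_le (Nat.lt_succ_self n) (hb.id_le (n + 1))⟩
  classical
  refine ⟨Nat.find hex, ?_, Nat.find_spec hex⟩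
  rcases Nat.eq_zero_or_pos (Nat.find hex) with h | h
  · rw [h, h0]
    exact Nat.zero_le _
  · have h1 := Nat.find_min hex (Nat.sub_lt h one_pos)
    have e : Nat.find hex - 1 + 1 = Nat.find hex := by omega
    rw [e] at h1
    exact not_lt.mp h1

theorem SM_unique {b : ℕ → ℕ} (hb : StrictMono b) {n j j' : ℕ} (h1 : b j ≤ n) (h2 : n < b (j + 1))
    (h3 : b j' ≤ n) (h4 : n < b (j' + 1)) : j = j' := by
  rcases lt_trichotomy j j' with h | h | h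
  · have := hb.monotone (Nat.succ_le_of_lt h)
    exact absurd (lt_of_lt_of_le h2 this) (not_lt.mpr h3)
  · exact h
  · have := hb.monotone (Nat.succ_le_of_lt h)
    exact absurd (lt_of_lt_of_le h4 this) (not_lt.mpr h1)

theorem SM_inf {b : ℕ → ℕ} (hb : StrictMono b) {J D : Set ℕ} (hJ : J.Infinite)
    (h : ∀ j ∈ J, ∃ n, b j ≤ n ∧ n ∈ D) : D.Infinite := by
  refine Set.infinite_of_forall_exists_gt fun a => ?_
  obtain ⟨j, hj, haj⟩ := hJ.exists_gt a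
  obtain ⟨n, hn, hD⟩ := h j hj
  exact ⟨n, hD, lt_of_lt_of_le haj ((hb.id_le j).trans hn)⟩

/-- the recoloured set -/
def SM_C (C₀ S : Set ℕ) (b : ℕ → ℕ) : Set ℕ :=
  {n | ∃ j, b j ≤ n ∧ n < b (j + 1) ∧ (n ∈ C₀ ↔ j ∉ S)}

theorem SM_mem {C₀ S : Set ℕ} {b : ℕ → ℕ} (hb : StrictMono b) {n j : ℕ} (h1 : b j ≤ n)
    (h2 : n < b (j + 1)) : n ∈ SM_C C₀ S b ↔ (n ∈ C₀ ↔ j ∉ S) := by
  constructor
  · rintro ⟨j', h3, h4, h5⟩
    rwa [SM_unique hb h1 h2 h3 h4]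
  · intro h
    exact ⟨j, h1, h2, h⟩

/-- a strictly increasing sequence of blocks such that every point of `X` sees both colours in
infinitely many blocks -/
theorem SM_blocks (hSELM : StSELM) (X : Set ℝ) (hX : Menger X) (C₀ : Set ℕ) (W : ℕ → Set ℝ)
    (hW : ∀ n, IsOpen (W n))
    (hC : ∀ x ∈ X, {n | n ∈ C₀ ∧ x ∈ W n}.Infinite ∧ {n | n ∉ C₀ ∧ x ∈ W n}.Infinite) :
    ∃ b : ℕ → ℕ, StrictMono b ∧ b 0 = 0 ∧ ∀ x ∈ X, {j | x ∈ SM_P C₀ W (b j) (b (j + 1))}.Infinite := by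
  obtain ⟨h₀, hh₀⟩ := hSELM X (SM_O C₀ W) hX (SM_O_open C₀ W hW) (SM_O_mono C₀ W) (by
    intro k x hx
    obtain ⟨p, hp1, hp2⟩ := SM_P_ex C₀ W (hC x hx).1 (hC x hx).2 k
    obtain ⟨l, hl1, hl2⟩ := SM_P_ex C₀ W (hC x hx).1 (hC x hx).2 p
    rw [Set.mem_iUnion]
    exact ⟨l, p, hp1, hl1, hp2, hl2⟩)
  obtain ⟨h, hh⟩ : ∃ h : ℕ → ℕ, h = fun k => k + 1 + ∑ i ∈ Finset.range (k + 1), h₀ i := ⟨_, rfl⟩
  have hmono : Monotone h := by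
    refine monotone_nat_of_le_succ fun k => ?_
    rw [hh]
    simp only
    rw [Finset.sum_range_succ (n := k + 1)]
    omega
  have hgt : ∀ k, k < h k := by
    intro k
    rw [hh]
    simp only
    omega
  have hge : ∀ k, h₀ k ≤ h k := by
    intro k
    rw [hh]
    simp only
    rw [Finset.sum_range_succ]
    omega
  obtain ⟨b, hb0, hbs⟩ : ∃ b : ℕ → ℕ, b 0 = 0 ∧ ∀ j, b (j + 1) = h (b j) :=
    ⟨fun j => h^[j] 0, rfl, fun j => Function.iterate_succ_apply' h j 0⟩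
  have hb : StrictMono b := strictMono_nat_of_lt_succ fun j => by
    rw [hbs]
    exact hgt _
  refine ⟨b, hb, hb0, fun x hx => ?_⟩
  refine Set.infinite_of_forall_exists_gt fun N => ?_
  obtain ⟨k, hk1, hk2⟩ := (frequently_atTop.mp (hh₀ x hx)) (b (N + 1))
  have hk3 : x ∈ SM_O C₀ W k (h k) := SM_O_mono C₀ W k (hge k) hk2
  obtain ⟨j, hj1, hj2⟩ := SM_block hb hb0 k
  have hNj : N < j := by
    have h1 : b (N + 1) < b (j + 1) := lt_of_le_of_lt hk1 hj2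
    have := hb.lt_iff_lt.mp h1
    omega
  obtain ⟨p, hp1, hp2, hp3, hp4⟩ := hk3
  have hhk : h k ≤ b (j + 2) := by
    rw [hbs (j + 1)]
    exact hmono hj2.le
  rcases le_total p (b (j + 1)) with hp | hp
  · exact ⟨j, SM_P_mono C₀ W hj1 hp hp3, hNj⟩
  · exact ⟨j + 1, SM_P_mono C₀ W hp hhk hp4, by omega⟩

theorem un_SM (hSELM : StSELM) : StSM := by
  intro X Y hX hS hr W hW hlarge
  obtain ⟨C₀, hC₀⟩ := hS W hW fun x hx => hlarge x (Or.inl hx)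
  obtain ⟨b, hb, hb0, hbX⟩ := SM_blocks hSELM X hX C₀ W hW hC₀
  -- the traces of the points of `Y`
  obtain ⟨T, hT⟩ : ∃ T : Bool × Y → Set ℕ, T = fun q =>
    {j | ∃ n, b j ≤ n ∧ n < b (j + 1) ∧ (n ∈ C₀ ↔ q.1 = true) ∧ (q.2 : ℝ) ∈ W n} := ⟨_, rfl⟩
  obtain ⟨S, hSp⟩ := hr {A | A.Infinite ∧ A ∈ Set.range T} (by
    calc #{A : Set ℕ | A.Infinite ∧ A ∈ Set.range T} ≤ #(Set.range T) :=
          Cardinal.mk_le_mk_of_subset fun A hA => hA.2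
      _ ≤ #(Bool × Y) := Cardinal.mk_range_le
      _ = 2 * #Y := by simp) (fun A hA => hA.1)
  refine ⟨SM_C C₀ S b, ?_⟩
  rintro z (hz | hz)
  · -- points of `X`
    have hJ := hbX z hz
    have key : ∀ j ∈ {j | z ∈ SM_P C₀ W (b j) (b (j + 1))},
        (∃ n, b j ≤ n ∧ n ∈ {n | n ∈ SM_C C₀ S b ∧ z ∈ W n}) ∧
        ∃ n, b j ≤ n ∧ n ∈ {n | n ∉ SM_C C₀ S b ∧ z ∈ W n} := by
      rintro j ⟨⟨n, h1, h2, h3, h4⟩, n', g1, g2, g3, g4⟩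
      have e1 : n ∈ SM_C C₀ S b ↔ (n ∈ C₀ ↔ j ∉ S) := SM_mem hb h1 h2
      have e2 : n' ∈ SM_C C₀ S b ↔ (n' ∈ C₀ ↔ j ∉ S) := SM_mem hb g1 g2
      by_cases hj : j ∈ S
      · refine ⟨⟨n', g1, ?_, g4⟩, n, h1, ?_, h4⟩
        · rw [e2]
          exact ⟨fun h => absurd h g3, fun h => absurd hj h⟩
        · rw [e1]
          exact fun h => (h.mp h3) hj
      · refine ⟨⟨n, h1, ?_, h4⟩, n', g1, ?_, g4⟩
        · rw [e1]
          exact ⟨fun _ => hj, fun _ => h3⟩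
        · rw [e2]
          exact fun h => g3 (h.mpr hj)
    exact ⟨SM_inf hb hJ fun j hj => (key j hj).1, SM_inf hb hJ fun j hj => (key j hj).2⟩
  · -- points of `Y`
    have hinf := hlarge z (Or.inr hz)
    obtain ⟨c, hc⟩ : ∃ c : Bool, (T (c, ⟨z, hz⟩)).Infinite := by
      by_contra hcon
      push Not at hcon
      have f1 := hcon true
      have f2 := hcon false
      have hfin : (T (true, ⟨z, hz⟩) ∪ T (false, ⟨z, hz⟩)).Finite := f1.union f2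
      obtain ⟨B, hB⟩ := hfin.bddAbove
      obtain ⟨n, hn, hn2⟩ := hinf.exists_gt (b (B + 1))
      obtain ⟨j, hj1, hj2⟩ := SM_block hb hb0 n
      have hjB : B < j := by
        have h1 : b (B + 1) < b (j + 1) := lt_trans hn2 hj2
        have := hb.lt_iff_lt.mp h1
        omega
      have hjT : j ∈ T (true, ⟨z, hz⟩) ∪ T (false, ⟨z, hz⟩) := by
        rw [hT]
        by_cases hn0 : n ∈ C₀
        · exact Or.inl ⟨n, hj1, hj2, by simp [hn0], hn⟩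
        · exact Or.inr ⟨n, hj1, hj2, by simp [hn0], hn⟩
      exact absurd (hB hjT) (not_le.mpr hjB)
    obtain ⟨s1, s2⟩ := hSp (T (c, ⟨z, hz⟩)) ⟨hc, _, rfl⟩
    have hmem : ∀ j ∈ T (c, ⟨z, hz⟩), ∃ n, b j ≤ n ∧ n < b (j + 1) ∧ (n ∈ C₀ ↔ c = true) ∧
        z ∈ W n := by
      intro j hj
      rw [hT] at hj
      exact hj
    have k1 : ∀ j ∈ T (c, ⟨z, hz⟩) ∩ S, ∃ n, b j ≤ n ∧ z ∈ W n ∧
        (n ∈ SM_C C₀ S b ↔ c = false) := by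
      rintro j ⟨hj, hjS⟩
      obtain ⟨n, h1, h2, h3, h4⟩ := hmem j hj
      refine ⟨n, h1, h4, ?_⟩
      rw [SM_mem hb h1 h2, h3]
      cases c <;> simp [hjS]
    have k2 : ∀ j ∈ T (c, ⟨z, hz⟩) \ S, ∃ n, b j ≤ n ∧ z ∈ W n ∧
        (n ∈ SM_C C₀ S b ↔ c = true) := by
      rintro j ⟨hj, hjS⟩
      obtain ⟨n, h1, h2, h3, h4⟩ := hmem j hj
      refine ⟨n, h1, h4, ?_⟩
      rw [SM_mem hb h1 h2, h3]
      cases c <;> simp [hjS]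
    cases c with
    | true =>
      refine ⟨SM_inf hb s2 fun j hj => ?_, SM_inf hb s1 fun j hj => ?_⟩
      · obtain ⟨n, h1, h2, h3⟩ := k2 j hj
        exact ⟨n, h1, h3.mpr rfl, h2⟩
      · obtain ⟨n, h1, h2, h3⟩ := k1 j hj
        exact ⟨n, h1, fun h => Bool.noConfusion (h3.mp h), h2⟩
    | false =>
      refine ⟨SM_inf hb s1 fun j hj => ?_, SM_inf hb s2 fun j hj => ?_⟩
      · obtain ⟨n, h1, h2, h3⟩ := k1 j hj
        exact ⟨n, h1, h3.mpr rfl, h2⟩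
      · obtain ⟨n, h1, h2, h3⟩ := k2 j hj
        exact ⟨n, h1, fun h => Bool.noConfusion (h3.mp h), h2⟩

end Pool.Agent.Work.MP_674062_gt.Un
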