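import Pool.Agent.Work.MP_674062_gt.Un.Asm
import Pool.Agent.Work.MP_674062_gt.Un.I_SEQ1
import Pool.Agent.Work.MP_674062_gt.Un.I_SEQ2
import Pool.Agent.Work.MP_674062_gt.Un.I_SELM
import Pool.Agent.Work.MP_674062_gt.Un.I_SELH
import Pool.Agent.Work.MP_674062_gt.Un.I_HU
import Pool.Agent.Work.MP_674062_gt.Un.I_BL
import Pool.Agent.Work.MP_674062_gt.Un.I_HS
import Pool.Agent.Work.MP_674062_gt.Un.I_BH
import Pool.Agent.Work.MP_674062_gt.Un.I_GL
import Pool.Agent.Work.MP_674062_gt.Un.I_CB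
import Pool.Agent.Work.MP_674062_gt.Un.I_CO
import Pool.Agent.Work.MP_674062_gt.Un.I_INC
import Pool.Agent.Work.MP_674062_gt.Un.I_SM

open Set Filter Cardinal

namespace Pool.Agent.Work.MP_674062_gt.Un

theorem all_BH : StBH := un_BH (un_BL un_SELH)
theorem all_HS : StHS := un_HS (un_BL un_SELH)
theorem all_INC : StINC := un_INC un_SELM
theorem all_CB : StCB := un_CB all_BH un_HU
theorem all_CO : StCO := un_CO un_HU
theorem all_SM : StSM := un_SM un_SELM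

theorem splitLL_iff_seqSplit {X : Set ℝ} : SplitLL X ↔ SeqSplit X :=
  ⟨asm_seqSplit un_SEQ2 un_HU all_HS all_BH un_GL, un_SEQ1 X⟩

theorem increasing (X : ℕ → Set ℝ) (hm : Monotone X) (hM : ∀ n, Menger (X n))
    (hX : ∀ n, SplitLL (X n)) : SplitLL (⋃ n, X n : Set ℝ) :=
  asm_inc un_SEQ1 un_SEQ2 un_HU all_HS all_BH un_GL all_INC X hm hM hX

theorem concentrated (X : ℕ → Set ℝ) (hX : ∀ n, SplitLL (X n)) (hC : ∀ n, Conc (X (n + 1))) :
    SplitLL (⋃ n, X n : Set ℝ) :=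
  asm_conc un_SEQ1 un_SEQ2 un_HU all_HS all_BH un_GL all_INC all_CB all_CO X hX hC

end Pool.Agent.Work.MP_674062_gt.Un
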