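import Pool.Agent.Work.MP_674062_gt.Un.Stmts

/-!
# Assembly of block Un (from the items as hypotheses)
-/

open Set Filter Cardinal

namespace Pool.Agent.Work.MP_674062_gt.Un

lemma asm_seqSplit (hSEQ2 : StSEQ2) (hHU : StHU) (hHS : StHS) (hBH : StBH) (hGL : StGL)
    {X : Set ℝ} (h : SplitLL X) : SeqSplit X := by
  obtain ⟨hc, hs⟩ := hSEQ2 X h
  have hH : Hurewicz (X \ {x | ∀ G : Set ℝ, IsOpen G → x ∈ G → (G ∩ X).Infinite}) := hHU.2.1 _ hc
  have := hGL _ _ hs (hHS _ hH) (hBH _ _ hs hH)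
  rwa [inter_union_sdiff] at this

theorem asm_inc (hSEQ1 : StSEQ1) (hSEQ2 : StSEQ2) (hHU : StHU) (hHS : StHS) (hBH : StBH)
    (hGL : StGL) (hINC : StINC) (X : ℕ → Set ℝ) (hm : Monotone X) (hM : ∀ n, Menger (X n))
    (hX : ∀ n, SplitLL (X n)) : SplitLL (⋃ n, X n : Set ℝ) :=
  hSEQ1 _ (hINC X hm hM fun n => asm_seqSplit hSEQ2 hHU hHS hBH hGL (hX n))

theorem asm_conc (hSEQ1 : StSEQ1) (hSEQ2 : StSEQ2) (hHU : StHU) (hHS : StHS) (hBH : StBH)
    (hGL : StGL) (hINC : StINC) (hCB : StCB) (hCO : StCO) (X : ℕ → Set ℝ)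
    (hX : ∀ n, SplitLL (X n)) (hC : ∀ n, Conc (X (n + 1))) : SplitLL (⋃ n, X n : Set ℝ) := by
  have hS : ∀ n, SeqSplit (X n) := fun n => asm_seqSplit hSEQ2 hHU hHS hBH hGL (hX n)
  -- partial unions of the concentrated sets
  let Y : ℕ → Set ℝ := fun n => ⋃ i ∈ Finset.range (n + 1), X (i + 1)
  have hY0 : Y 0 = X 1 := by simp [Y]
  have hYs : ∀ n, Y (n + 1) = Y n ∪ X (n + 2) := by
    intro n
    ext z
    simp only [Y, Finset.mem_range, mem_iUnion, mem_union, exists_prop]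
    constructor
    · rintro ⟨i, hi, hz⟩
      rcases Nat.lt_succ_iff_lt_or_eq.1 hi with h | h
      · exact Or.inl ⟨i, h, hz⟩
      · subst h; exact Or.inr hz
    · rintro (⟨i, hi, hz⟩ | hz)
      · exact ⟨i, by omega, hz⟩
      · exact ⟨n + 1, by omega, hz⟩
  have hY : ∀ n, SeqSplit (Y n) ∧ Conc (Y n) := by
    intro n
    induction n with
    | zero => rw [hY0]; exact ⟨hS 1, hC 0⟩
    | succ n ih =>
      rw [hYs]
      exact ⟨hGL _ _ ih.1 (hS _) (hCB _ _ ih.1 (hC (n + 1))), hCO.2.1 _ _ ih.2 (hC (n + 1))⟩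
  have hmono : Monotone Y := monotone_nat_of_le_succ fun n => by rw [hYs]; exact subset_union_left
  have hU : SeqSplit (⋃ n, Y n) := hINC Y hmono (fun n => hCO.2.2 _ (hY n).2) fun n => (hY n).1
  have hUC : Conc (⋃ n, Y n) := hCO.1 Y fun n => (hY n).2
  have hfin : SeqSplit (X 0 ∪ ⋃ n, Y n) := hGL _ _ (hS 0) hU (hCB _ _ (hS 0) hUC)
  have heq : (X 0 ∪ ⋃ n, Y n) = ⋃ n, X n := by
    ext z
    simp only [Y, mem_union, mem_iUnion, Finset.mem_range, exists_prop]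
    constructor
    · rintro (h | ⟨n, i, -, h⟩)
      · exact ⟨0, h⟩
      · exact ⟨i + 1, h⟩
    · rintro ⟨n, h⟩
      rcases Nat.eq_zero_or_eq_succ_pred n with h0 | h0
      · left; rwa [h0] at h
      · right
        rw [h0] at h
        exact ⟨n.pred, n.pred, by simp, h⟩
  rw [heq] at hfin
  exact hSEQ1 _ hfin

end Pool.Agent.Work.MP_674062_gt.Un
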