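import Mathlib

/-!
# Split(Λ,Λ): definitions for the positive results on unions

Block Un of MP_674062_gt (captain helper60).
-/

open Set Filter

namespace Pool.Agent.Work.MP_674062_gt.Un

/-- `𝒰` is a large cover of the space `Z`: a family of open subsets of `Z` with union `Z`, not
containing `Z` itself, such that every point of `Z` lies in infinitely many members. -/
def IsLargeCover {Z : Type} [TopologicalSpace Z] (𝒰 : Set (Set Z)) : Prop :=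
  (∀ U ∈ 𝒰, IsOpen U) ∧ ⋃₀ 𝒰 = Set.univ ∧ Set.univ ∉ 𝒰 ∧ ∀ x : Z, {U | U ∈ 𝒰 ∧ x ∈ U}.Infinite

/-- `Split(Λ,Λ)`: every large cover contains two disjoint large covers. -/
def SplitLL (Z : Type) [TopologicalSpace Z] : Prop :=
  ∀ 𝒰 : Set (Set Z), IsLargeCover 𝒰 → ∃ 𝒱 𝒲 : Set (Set Z), 𝒱 ⊆ 𝒰 ∧ 𝒲 ⊆ 𝒰 ∧ Disjoint 𝒱 𝒲 ∧
    IsLargeCover 𝒱 ∧ IsLargeCover 𝒲

/-- Menger's property of a set of reals: from every sequence of open covers one can choose finite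
subfamilies whose union covers. -/
def Menger (X : Set ℝ) : Prop :=
  ∀ 𝒰 : ℕ → Set (Set ℝ), (∀ n, ∀ U ∈ 𝒰 n, IsOpen U) → (∀ n, X ⊆ ⋃₀ 𝒰 n) →
    ∃ ℱ : ℕ → Set (Set ℝ), (∀ n, ℱ n ⊆ 𝒰 n ∧ (ℱ n).Finite) ∧ ∀ x ∈ X, ∃ n, x ∈ ⋃₀ ℱ n

/-- The Hurewicz property of a set of reals: from every sequence of open covers one can choose
finite subfamilies such that each point is covered by all but finitely many of them. -/
def Hurewicz (X : Set ℝ) : Prop :=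
  ∀ 𝒰 : ℕ → Set (Set ℝ), (∀ n, ∀ U ∈ 𝒰 n, IsOpen U) → (∀ n, X ⊆ ⋃₀ 𝒰 n) →
    ∃ ℱ : ℕ → Set (Set ℝ), (∀ n, ℱ n ⊆ 𝒰 n ∧ (ℱ n).Finite) ∧ ∀ x ∈ X, ∀ᶠ n in atTop, x ∈ ⋃₀ ℱ n

/-- The sequence form of `Split(Λ,Λ)` for a set of reals: if `W` is a sequence of open sets such
that every point of `X` lies in infinitely many `W n` (repetitions are allowed), then some set `C`
of indices and its complement both have this property. -/
def SeqSplit (X : Set ℝ) : Prop :=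
  ∀ W : ℕ → Set ℝ, (∀ n, IsOpen (W n)) → (∀ x ∈ X, {n | x ∈ W n}.Infinite) →
    ∃ C : Set ℕ, ∀ x ∈ X, {n | n ∈ C ∧ x ∈ W n}.Infinite ∧ {n | n ∉ C ∧ x ∈ W n}.Infinite

/-- The bi-splitting property of a pair: given two sequences which are large on `X` and two which
are large on `Y`, some set `E` of indices is good for both sequences on `X`, and its complement is
good for both sequences on `Y`. -/
def Bi (X Y : Set ℝ) : Prop :=
  ∀ W₀ W₁ V₀ V₁ : ℕ → Set ℝ, (∀ n, IsOpen (W₀ n)) → (∀ n, IsOpen (W₁ n)) → (∀ n, IsOpen (V₀ n)) →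
    (∀ n, IsOpen (V₁ n)) → (∀ x ∈ X, {n | x ∈ W₀ n}.Infinite) → (∀ x ∈ X, {n | x ∈ W₁ n}.Infinite) →
    (∀ y ∈ Y, {n | y ∈ V₀ n}.Infinite) → (∀ y ∈ Y, {n | y ∈ V₁ n}.Infinite) →
    ∃ E : Set ℕ, (∀ x ∈ X, {n | n ∈ E ∧ x ∈ W₀ n}.Infinite ∧ {n | n ∈ E ∧ x ∈ W₁ n}.Infinite) ∧
      ∀ y ∈ Y, {n | n ∉ E ∧ y ∈ V₀ n}.Infinite ∧ {n | n ∉ E ∧ y ∈ V₁ n}.Infinite

/-- `Y` is concentrated, modulo the Hurewicz property, on a Hurewicz subset `H`. -/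
def Conc (Y : Set ℝ) : Prop :=
  ∃ H ⊆ Y, Hurewicz H ∧ ∀ G : Set ℝ, IsOpen G → H ⊆ G → Hurewicz (Y \ G)

end Pool.Agent.Work.MP_674062_gt.Un
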