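import Pool.Agent.Work.MP_674062_gt.Un.Stmts

/-!
# Item CB of block Un
-/

open Set Filter

namespace Pool.Agent.Work.MP_674062_gt.Un

theorem CB_union (hHU : StHU) {A B : Set ℝ} (hA : Hurewicz A) (hB : Hurewicz B) :
    Hurewicz (A ∪ B) := by
  classical
  have h := hHU.1 (fun n => if n = 0 then A else B) (by
    intro n
    by_cases hn : n = 0
    · simpa [hn] using hA
    · simpa [hn] using hB)
  have e : (⋃ n : ℕ, (if n = 0 then A else B)) = A ∪ B := by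
    ext x
    simp only [mem_iUnion, mem_union]
    constructor
    · rintro ⟨n, hn⟩
      by_cases h0 : n = 0
      · left; simpa [h0] using hn
      · right; simpa [h0] using hn
    · rintro (hx | hx)
      · exact ⟨0, by simpa using hx⟩
      · exact ⟨1, by simpa using hx⟩
  rwa [e] at h

theorem CB_inf_of {P : ℕ → Prop} (h : ∀ k, ∃ n, k ≤ n ∧ P n) : {n | P n}.Infinite := by
  rw [Set.infinite_iff_exists_gt]
  intro k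
  obtain ⟨n, hn, hP⟩ := h (k + 1)
  exact ⟨n, hP, hn⟩

theorem CB_of_inf {P : ℕ → Prop} (h : {n | P n}.Infinite) (k : ℕ) : ∃ n, k ≤ n ∧ P n := by
  obtain ⟨n, hn, hk⟩ := h.exists_gt k
  exact ⟨n, hk.le, hn⟩

/-- the open sets of the proof -/
def CB_G (E : Set ℕ) (V : ℕ → Set ℝ) (k : ℕ) : Set ℝ := ⋃ n ∈ {n | k ≤ n ∧ n ∉ E}, V n

theorem CB_open {E : Set ℕ} {V : ℕ → Set ℝ} (hV : ∀ n, IsOpen (V n)) (k : ℕ) :
    IsOpen (CB_G E V k) := isOpen_biUnion fun n _ => hV n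

theorem CB_mem {E : Set ℕ} {V : ℕ → Set ℝ} {k : ℕ} {y : ℝ} :
    y ∈ CB_G E V k ↔ ∃ n, k ≤ n ∧ n ∉ E ∧ y ∈ V n := by
  unfold CB_G
  simp only [mem_ofPred_eq, mem_iUnion, exists_prop]
  constructor
  · rintro ⟨n, ⟨h1, h2⟩, h3⟩
    exact ⟨n, h1, h2, h3⟩
  · rintro ⟨n, h1, h2, h3⟩
    exact ⟨n, ⟨h1, h2⟩, h3⟩

theorem un_CB (hBH : StBH) (hHU : StHU) : StCB := by
  rintro X Y hX ⟨H, hHY, hH, hG⟩ W₀ W₁ V₀ V₁ oW₀ oW₁ oV₀ oV₁ hW₀ hW₁ hV₀ hV₁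
  obtain ⟨E₁, hE₁, hE₁'⟩ := hBH X H hX hH W₀ W₁ V₀ V₁ oW₀ oW₁ oV₀ oV₁ hW₀ hW₁
    (fun y hy => hV₀ y (hHY hy)) (fun y hy => hV₁ y (hHY hy))
  have hs0 : ∀ k, Hurewicz (Y \ CB_G E₁ V₀ k) := fun k => hG _ (CB_open oV₀ k) fun y hy =>
    CB_mem.2 (by
      obtain ⟨n, h1, h2⟩ := CB_of_inf (hE₁' y hy).1 k
      exact ⟨n, h1, h2.1, h2.2⟩)
  have hs1 : ∀ k, Hurewicz (Y \ CB_G E₁ V₁ k) := fun k => hG _ (CB_open oV₁ k) fun y hy =>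
    CB_mem.2 (by
      obtain ⟨n, h1, h2⟩ := CB_of_inf (hE₁' y hy).2 k
      exact ⟨n, h1, h2.1, h2.2⟩)
  have hY₁ : Hurewicz (⋃ k, ((Y \ CB_G E₁ V₀ k) ∪ (Y \ CB_G E₁ V₁ k))) :=
    hHU.1 _ fun k => CB_union hHU (hs0 k) (hs1 k)
  set Y₁ : Set ℝ := ⋃ k, ((Y \ CB_G E₁ V₀ k) ∪ (Y \ CB_G E₁ V₁ k)) with hY₁def
  have hY₁Y : Y₁ ⊆ Y := by
    intro y hy
    rw [hY₁def] at hy
    obtain ⟨k, hk⟩ := mem_iUnion.1 hy
    rcases hk with hk | hk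
    · exact hk.1
    · exact hk.1
  have hop : ∀ W : ℕ → Set ℝ, (∀ n, IsOpen (W n)) → ∀ n, IsOpen {x : ℝ | n ∈ E₁ ∧ x ∈ W n} := by
    intro W hW n
    by_cases hn : n ∈ E₁
    · have : {x : ℝ | n ∈ E₁ ∧ x ∈ W n} = W n := by
        ext x; simp [hn]
      rw [this]; exact hW n
    · have : {x : ℝ | n ∈ E₁ ∧ x ∈ W n} = ∅ := by
        ext x; simp [hn]
      rw [this]; exact isOpen_empty
  obtain ⟨E', hE', hE''⟩ := hBH X Y₁ hX hY₁ (fun n => {x : ℝ | n ∈ E₁ ∧ x ∈ W₀ n})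
    (fun n => {x : ℝ | n ∈ E₁ ∧ x ∈ W₁ n}) V₀ V₁ (hop W₀ oW₀) (hop W₁ oW₁) oV₀ oV₁
    (fun x hx => (hE₁ x hx).1) (fun x hx => (hE₁ x hx).2)
    (fun y hy => hV₀ y (hY₁Y hy)) (fun y hy => hV₁ y (hY₁Y hy))
  refine ⟨E₁ ∩ E', fun x hx => ⟨?_, ?_⟩, fun y hy => ?_⟩
  · refine (hE' x hx).1.mono fun n hn => ?_
    exact ⟨⟨hn.2.1, hn.1⟩, hn.2.2⟩
  · refine (hE' x hx).2.mono fun n hn => ?_
    exact ⟨⟨hn.2.1, hn.1⟩, hn.2.2⟩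
  · by_cases hy₁ : y ∈ Y₁
    · refine ⟨(hE'' y hy₁).1.mono fun n hn => ⟨fun h => hn.1 h.2, hn.2⟩,
        (hE'' y hy₁).2.mono fun n hn => ⟨fun h => hn.1 h.2, hn.2⟩⟩
    · have hn : ∀ k, y ∈ CB_G E₁ V₀ k ∧ y ∈ CB_G E₁ V₁ k := by
        intro k
        constructor
        · by_contra h
          exact hy₁ (mem_iUnion.2 ⟨k, Or.inl ⟨hy, h⟩⟩)
        · by_contra h
          exact hy₁ (mem_iUnion.2 ⟨k, Or.inr ⟨hy, h⟩⟩)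
      constructor
      · refine CB_inf_of fun k => ?_
        obtain ⟨n, h1, h2, h3⟩ := CB_mem.1 (hn k).1
        exact ⟨n, h1, fun h => h2 h.1, h3⟩
      · refine CB_inf_of fun k => ?_
        obtain ⟨n, h1, h2, h3⟩ := CB_mem.1 (hn k).2
        exact ⟨n, h1, fun h => h2 h.1, h3⟩

end Pool.Agent.Work.MP_674062_gt.Un
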