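import Pool.Agent.Work.MP_674062_gt.Un.All

/-!
# Adding fewer points than the reaping number
-/

open Set Filter Cardinal

namespace Pool.Agent.Work.MP_674062_gt.Un

/-- The reaping number: the least size of a family of infinite sets of natural numbers such that no
single set splits all its members. -/
noncomputable def reapingNumber : Cardinal.{0} :=
  sInf {κ | ∃ 𝒜 : Set (Set ℕ), #𝒜 = κ ∧ (∀ A ∈ 𝒜, A.Infinite) ∧
    ∀ S : Set ℕ, ∃ A ∈ 𝒜, ¬ ((A ∩ S).Infinite ∧ (A \ S).Infinite)}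

lemma split_countable {𝒜 : Set (Set ℕ)} (hc : 𝒜.Countable) (hi : ∀ A ∈ 𝒜, A.Infinite) :
    ∃ S : Set ℕ, ∀ A ∈ 𝒜, (A ∩ S).Infinite ∧ (A \ S).Infinite := by
  classical
  rcases 𝒜.eq_empty_or_nonempty with h0 | hne
  · exact ⟨∅, by simp [h0]⟩
  obtain ⟨f, hf⟩ := hc.exists_eq_range hne
  let Y : Set ℝ := range fun i : ℕ => (i : ℝ)
  have hY : SeqSplit Y := all_HS Y (un_HU.2.1 Y (countable_range _))
  let W : ℕ → Set ℝ := fun n => ⋃ i ∈ {i : ℕ | n ∈ f i}, Metric.ball (i : ℝ) (1 / 2)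
  have hW : ∀ n, IsOpen (W n) := fun n => isOpen_biUnion fun i _ => Metric.isOpen_ball
  have hmem : ∀ i n : ℕ, (i : ℝ) ∈ W n ↔ n ∈ f i := by
    intro i n
    simp only [W, mem_iUnion, Metric.mem_ball, exists_prop]
    constructor
    · rintro ⟨j, hj, hd⟩
      have : i = j := by
        rw [Real.dist_eq] at hd
        have h1 : |((i : ℤ) - (j : ℤ) : ℤ)| < 1 := by
          have h2 : |(((i : ℤ) - (j : ℤ) : ℤ) : ℝ)| < 1 := by push_cast; linarith
          exact_mod_cast h2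
        have h3 := abs_lt.1 h1
        omega
      rw [this]; exact hj
    · intro h
      exact ⟨i, h, by simp⟩
  obtain ⟨C, hC⟩ := hY W hW (by
    rintro _ ⟨i, rfl⟩
    have : {n | ((fun i : ℕ => (i : ℝ)) i) ∈ W n} = f i := by
      ext n; exact hmem i n
    rw [this]
    exact hi _ (hf ▸ mem_range_self i))
  refine ⟨C, fun A hA => ?_⟩
  rw [hf] at hA
  obtain ⟨i, rfl⟩ := hA
  obtain ⟨h1, h2⟩ := hC (i : ℝ) ⟨i, rfl⟩
  constructor
  · refine h1.mono ?_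
    rintro n ⟨hn, hx⟩
    exact ⟨(hmem i n).1 hx, hn⟩
  · refine h2.mono ?_
    rintro n ⟨hn, hx⟩
    exact ⟨(hmem i n).1 hx, hn⟩

lemma split_of_lt {𝒜 : Set (Set ℕ)} (h : #𝒜 < reapingNumber) (hi : ∀ A ∈ 𝒜, A.Infinite) :
    ∃ S : Set ℕ, ∀ A ∈ 𝒜, (A ∩ S).Infinite ∧ (A \ S).Infinite := by
  by_contra hcon
  push Not at hcon
  have := notMem_of_lt_csInf' h
  apply this
  refine ⟨𝒜, rfl, hi, fun S => ?_⟩
  obtain ⟨A, hA, hS⟩ := hcon S
  exact ⟨A, hA, fun h => h.2 (hS h.1)⟩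

lemma aleph0_le_reaping : ℵ₀ ≤ reapingNumber := by
  apply le_csInf
  · refine ⟨_, {A : Set ℕ | A.Infinite}, rfl, fun A hA => hA, fun S => ?_⟩
    by_cases hS : S.Infinite
    · exact ⟨S, hS, fun h => h.2 (by simp)⟩
    · refine ⟨Sᶜ, (not_infinite.1 hS).infinite_compl, fun h => h.1 (by simp)⟩
  · rintro κ ⟨𝒜, rfl, hi, hS⟩
    by_contra hcon
    rw [not_le, lt_aleph0_iff_set_finite] at hcon
    obtain ⟨S, hS'⟩ := split_countable hcon.countable hi
    obtain ⟨A, hA, h⟩ := hS S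
    exact h (hS' A hA)

theorem small (X Y : Set ℝ) (hM : Menger X) (hX : SplitLL X) (hY : #Y < reapingNumber) :
    SplitLL (X ∪ Y : Set ℝ) := by
  apply splitLL_iff_seqSplit.2
  apply all_SM X Y hM (splitLL_iff_seqSplit.1 hX)
  intro 𝒜 h𝒜 hi
  refine split_of_lt (lt_of_le_of_lt h𝒜 ?_) hi
  rcases lt_or_ge #Y ℵ₀ with hfin | hinf
  · exact lt_of_lt_of_le (mul_lt_aleph0 (natCast_lt_aleph0 (n := 2)) hfin) aleph0_le_reaping
  · have h2 : (2 : Cardinal.{0}) ≤ #Y := (natCast_lt_aleph0 (n := 2)).le.trans hinf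
    rwa [Cardinal.mul_eq_right hinf h2 two_ne_zero]

end Pool.Agent.Work.MP_674062_gt.Un
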