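import Pool.Agent.Work.MP_674062_gt.Un.Defs

/-!
# Statements of block Un, with complete proofs in the docstrings
-/

open Set Filter Cardinal

namespace Pool.Agent.Work.MP_674062_gt.Un

/-- SEQ1. The sequence form implies `Split(Λ,Λ)`.
PROOF. Copy of `splitLL_image` in Pool/Agent/Results/MP_674062_gt/NonAdditive.lean (lines 923 ff.)
with the identity in place of `emb`; the countable large subcover comes from
`exists_countable_large` of the same file (copy it; do not import the file). -/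
def StSEQ1 : Prop := ∀ X : Set ℝ, SeqSplit X → SplitLL X

/-- SEQ2. `Split(Λ,Λ)` gives the sequence form on the non isolated points of `X`.
PROOF. Let `Z = {x ∈ X | every neighbourhood of x has infinitely many points of X}`,
`F = X \ Z`; every point of `F` has an open `G ⊆ ℝ` with `G ∩ X = {x}` (shrink a neighbourhood
with finitely many points of `X`), and `F` is countable (second countability: it is a discrete
subspace; for instance choose for each `x ∈ F` a member of a countable basis with `B ∩ X = {x}`).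
If `Z` is empty take `C = ∅`. Otherwise `N = {n | (W n ∩ Z).Nonempty}` is infinite; let
`σ : ℕ → ℕ` be its strictly increasing enumeration (`Nat.nth` or `Nat.orderEmbeddingOfSet`) and
`W' i = W (σ i)`; `W' i ∩ X` is infinite. Let `F = ⋃ F i`, `F i` finite and increasing.
By strong recursion choose `z i ∈ W' i ∩ X` with `z i ∉ F i`, `z i ∉ {z j | j < i}` and
`V i := ((W' i ∩ X) ∪ F i) \ {z i}` different from `V j`, `j < i`: all conditions together exclude
only finitely many points of the infinite set `W' i ∩ X`, because for a given set `S` there is at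
most one point `z` of `(W' i ∩ X) ∪ F i` with `((W' i ∩ X) ∪ F i) \ {z} = S`. Then `V` is injective,
`z` is injective, `V i` is the trace on `X` of an open set of reals, `z i ∉ V i`.
The family `{V i}` is a large cover of `X`: `x ∈ Z` lies in `W n` for infinitely many `n`, all of
them in `N`, so in `W' i` for infinitely many `i`, and `x = z i` for at most one `i`; a point
`x ∈ F` lies in `F i` for all large `i` and then `x ≠ z i`. `Split(Λ,Λ)` gives disjoint large
`𝒱, 𝒲` inside; put `C = {σ i | V i ∈ 𝒱}`. For `x ∈ Z` we have `x ∈ V i → x ∈ W' i` (as `x ∉ F`). -/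
def StSEQ2 : Prop := ∀ X : Set ℝ, SplitLL X →
  (X \ {x | ∀ G : Set ℝ, IsOpen G → x ∈ G → (G ∩ X).Infinite}).Countable ∧
  SeqSplit (X ∩ {x | ∀ G : Set ℝ, IsOpen G → x ∈ G → (G ∩ X).Infinite})

/-- SELM. Menger selection, the form with infinitely many indices.
PROOF. For each `r` apply `Menger` to the covers `{O (k + r) l | l}`: finitely many members of an
increasing sequence lie in one of them, which gives `h_r` with `∀ x ∈ X, ∃ k, x ∈ O (k+r) (h_r k)`.
Put `h k = max over r ≤ k of h_r (k - r)`. -/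
def StSELM : Prop := ∀ (X : Set ℝ) (O : ℕ → ℕ → Set ℝ), Menger X → (∀ k l, IsOpen (O k l)) →
  (∀ k, Monotone (O k)) → (∀ k, X ⊆ ⋃ l, O k l) →
  ∃ h : ℕ → ℕ, ∀ x ∈ X, ∃ᶠ k in atTop, x ∈ O k (h k)

/-- SELH. Hurewicz selection.
PROOF. `Hurewicz` for the covers `{O k l | l}`; finitely many members of an increasing sequence
lie in one of them. -/
def StSELH : Prop := ∀ (X : Set ℝ) (O : ℕ → ℕ → Set ℝ), Hurewicz X → (∀ k l, IsOpen (O k l)) →
  (∀ k, Monotone (O k)) → (∀ k, X ⊆ ⋃ l, O k l) →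
  ∃ h : ℕ → ℕ, ∀ x ∈ X, ∀ᶠ k in atTop, x ∈ O k (h k)

/-- HU. The Hurewicz property: countable unions, countable sets, implies Menger.
PROOF. Unions: for the sequence `𝒰` of covers of `⋃ n, Y n` choose `ℱ^n` for `Y n` and put
`ℱ k = ⋃ n ≤ k, ℱ^n k`. A single point: one member of each cover. A countable set is a countable
union of points and empty sets (`Set.Countable.exists_eq_range` or enumerate). Menger: an
eventually true statement is true for some index. -/
def StHU : Prop := (∀ Y : ℕ → Set ℝ, (∀ n, Hurewicz (Y n)) → Hurewicz (⋃ n, Y n)) ∧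
  (∀ Y : Set ℝ, Y.Countable → Hurewicz Y) ∧ ∀ Y : Set ℝ, Hurewicz Y → Menger Y

/-- BL. Blocks for a Hurewicz set.
PROOF. `O k l = {y | ∃ n, k ≤ n ∧ n < l ∧ y ∈ V₀ n} ∩ {y | ∃ n, k ≤ n ∧ n < l ∧ y ∈ V₁ n}` is open,
increasing in `l` and for each `k` these sets cover `Y` (the index sets are infinite). SELH gives
`h`; put `b 0 = 0`, `b (k+1) = max (h (b k)) (b k + 1)`. As `b k → ∞`, `y ∈ O (b k) (h (b k))` for
all large `k`. -/
def StBL : Prop := ∀ (Y : Set ℝ) (V₀ V₁ : ℕ → Set ℝ), Hurewicz Y → (∀ n, IsOpen (V₀ n)) →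
  (∀ n, IsOpen (V₁ n)) → (∀ y ∈ Y, {n | y ∈ V₀ n}.Infinite) → (∀ y ∈ Y, {n | y ∈ V₁ n}.Infinite) →
  ∃ b : ℕ → ℕ, StrictMono b ∧ b 0 = 0 ∧ ∀ y ∈ Y, ∀ᶠ k in atTop,
    (∃ n, b k ≤ n ∧ n < b (k + 1) ∧ y ∈ V₀ n) ∧ ∃ n, b k ≤ n ∧ n < b (k + 1) ∧ y ∈ V₁ n

/-- HS. A Hurewicz set has the sequence form of `Split(Λ,Λ)`.
PROOF. BL with `V₀ = V₁ = W`; `C = {n | the block k with b k ≤ n < b (k+1) has k even}` (every `n`
lies in exactly one block because `b 0 = 0` and `b` is strictly increasing; one may define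
`C = {n | ∃ k, Even k ∧ b k ≤ n ∧ n < b (k+1)}`). -/
def StHS : Prop := ∀ Y : Set ℝ, Hurewicz Y → SeqSplit Y

/-- BH. A set with the sequence form of Split and a Hurewicz set are a bi-splitting pair.
PROOF. Take `b` from BL for `Y, V₀, V₁`. The coarse sets `T_i k = ⋃ n ∈ [b k, b (k+1)), W_i n`
(`i = 0, 1`) are open and every `x ∈ X` lies in infinitely many `T_i k` (the blocks are finite and
cover all indices). `SeqSplit X` gives `K₀` for `T₀` and `K₁` for `T₁`; each of the four sets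
`K₀ ∪ K₁`, `K₀ ∪ K₁ᶜ`, `K₀ᶜ ∪ K₁`, `K₀ᶜ ∪ K₁ᶜ` is good for both `T₀` and `T₁`, their complements
`K₀ᶜ ∩ K₁ᶜ`, .. form a partition of `ℕ`, so one complement is infinite; let `K` be the
corresponding set and `E = {n | ∃ k ∈ K, b k ≤ n ∧ n < b (k+1)}`. Infinitely many blocks lie
outside `E`, and almost all of these contain some `n` with `y ∈ V₀ n` and some with `y ∈ V₁ n`. -/
def StBH : Prop := ∀ X Y : Set ℝ, SeqSplit X → Hurewicz Y → Bi X Y

/-- GL. Gluing.
PROOF. Let `C₀` split `W` on `X`, `C₁` split `W` on `Y`. Apply `Bi X Y` to `W₀ n = W n` if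
`n ∈ C₀` and `∅` otherwise, `W₁ n = W n` if `n ∉ C₀`, `V₀, V₁` the same with `C₁`. The set
`C = {n | (n ∈ E ∧ n ∈ C₀) ∨ (n ∉ E ∧ n ∈ C₁)}` splits `W` on `X ∪ Y`. -/
def StGL : Prop := ∀ X Y : Set ℝ, SeqSplit X → SeqSplit Y → Bi X Y → SeqSplit (X ∪ Y)

/-- CB. A set with the sequence form of Split and a concentrated set are a bi-splitting pair.
PROOF. Let `H` be as in `Conc`. BH for `X, H` gives `E₁` for `W₀, W₁, V₀, V₁`. For `i = 0, 1` and
`k` let `G_i k = ⋃ n ≥ k, n ∉ E₁, V_i n`: open, contains `H`. So `Y₁ = ⋃ k, (Y \ G_0 k) ∪ ⋃ k, (Y \ G_1 k)`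
is Hurewicz (HU), and every `y ∈ Y \ Y₁` lies in `V_i n` for infinitely many `n ∉ E₁`, `i = 0, 1`.
BH for `X, Y₁` and the sequences `W_i n` for `n ∈ E₁`, `∅` for `n ∉ E₁`, and `V₀, V₁` gives `E'`.
Put `E = E₁ ∩ E'`; its complement contains those of `E₁` and `E'`. -/
def StCB : Prop := ∀ X Y : Set ℝ, SeqSplit X → Conc Y → Bi X Y

/-- CO. Concentrated sets: countable unions, Menger.
PROOF. Unions: `H = ⋃ H n`, and `(⋃ Y n) \ G = ⋃ (Y n \ G)` (HU). Menger: given the covers `𝒰 n`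
of `Y`, apply `Hurewicz H` (or Menger) to the covers `𝒰 (2n)`; `G` = the union of the chosen sets
is open and contains `H`; apply `Menger (Y \ G)` (HU) to the covers `𝒰 (2n+1)`. -/
def StCO : Prop := (∀ Y : ℕ → Set ℝ, (∀ n, Conc (Y n)) → Conc (⋃ n, Y n)) ∧
  (∀ X Y : Set ℝ, Conc X → Conc Y → Conc (X ∪ Y)) ∧ ∀ Y : Set ℝ, Conc Y → Menger Y

/-- INC. Increasing unions of Menger sets (sequence form).
PROOF. Let `W` be large on `⋃ X n` and let `C m` split `W` on `X m`. For `m, k ≤ l` let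
`P m k l = {z | (∃ n, k ≤ n ∧ n < l ∧ n ∈ C m ∧ z ∈ W n) ∧ ∃ n, k ≤ n ∧ n < l ∧ n ∉ C m ∧ z ∈ W n}`,
an open set, increasing in `l`. For `i ≤ k` let
`O_i k l = {z | ∃ p, k ≤ p ∧ p ≤ l ∧ ∀ m, i ≤ m → m ≤ k → z ∈ P m k p ∧ z ∈ P m p l}`: open,
increasing in `l` (for `k < i` put everything), and `X i ⊆ ⋃ l, O_i k l` because `X i ⊆ X m` for
`m ≥ i`. SELM for `X i` gives `h_i`; let `h` be strictly increasing with `h k > k` and
`h k ≥ h_i k` for all `i ≤ k` (for instance `h k = k + 1 + Σ j ≤ k, Σ i ≤ j, h_i j`); so for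
`z ∈ X i` one has `z ∈ O_i k (h k)` for infinitely many `k ≥ i`. Let `b 0 = 1`, `b (j+1) = h (b j)`;
then `b j ≥ j + 1`, `b` is strictly increasing. Put
`C = {n | ∃ j, b j ≤ n ∧ n < b (j+1) ∧ n ∈ C j}` (blocks are disjoint). Let `z ∈ X i` and `N` be
given; take `k ≥ max (b (i + N)) ..` with `z ∈ O_i k (h k)` and `j` with `b j ≤ k < b (j+1)`, so
`j ≥ i + N`, `i ≤ j`, `j + 1 ≤ b j ≤ k` and `h k ≤ h (b (j+1)) = b (j+2)`. Let `p` be as in the
definition of `O_i`. If `p ≤ b (j+1)`, then `z ∈ P j k p ⊆ P j (b j) (b (j+1))`; otherwise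
`z ∈ P (j+1) p (h k) ⊆ P (j+1) (b (j+1)) (b (j+2))`. In both cases some block `[b j', b (j'+1))`
with `j' ≥ N` contains an `n ∈ C j'` and an `n ∉ C j'` with `z ∈ W n`, that is an `n ∈ C` and an
`n ∉ C` (the block determines `j'`). -/
def StINC : Prop := ∀ X : ℕ → Set ℝ, Monotone X → (∀ n, Menger (X n)) → (∀ n, SeqSplit (X n)) →
  SeqSplit (⋃ n, X n)

/-- SM. Small sets, sequence form (`#Y` smaller than the reaping number).
PROOF. Let `C₀` split `W` on `X`. For `k ≤ l` let `P k l` be the open set of the `z` with some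
`n ∈ [k, l)`, `n ∈ C₀`, `z ∈ W n` and some `n ∈ [k, l)`, `n ∉ C₀`, `z ∈ W n`, and
`O k l = {z | ∃ p, k ≤ p ∧ p ≤ l ∧ z ∈ P k p ∧ z ∈ P p l}`. SELM gives `h`, made strictly
increasing with `h k > k`; `b 0 = 0`, `b (j+1) = h (b j)`. As in INC every `x ∈ X` lies in
`P (b j) (b (j+1))` for infinitely many `j`. For `y ∈ Y` let
`T₀ y = {j | ∃ n, b j ≤ n ∧ n < b (j+1) ∧ n ∈ C₀ ∧ y ∈ W n}`, `T₁ y` the same with `n ∉ C₀`. The
family of the infinite sets among the `T₀ y, T₁ y` has at most `2 · #Y` members (`#Y` if `Y` is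
infinite, finitely many otherwise), so by the hypothesis (third argument, applied to the family) some
`S ⊆ ℕ` splits all its members. `C = {n | n ∈ C₀ ↔ the block j of n is not in S}`. On every block
which meets both `C₀` and its complement in indices `n` with `x ∈ W n`, the same is true of `C`. For
`y ∈ Y` one of `T₀ y, T₁ y` is infinite and is split by `S`. -/
def StSM : Prop := ∀ X Y : Set ℝ, Menger X → SeqSplit X →
  (∀ 𝒜 : Set (Set ℕ), #𝒜 ≤ 2 * #Y → (∀ A ∈ 𝒜, A.Infinite) →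
    ∃ S : Set ℕ, ∀ A ∈ 𝒜, (A ∩ S).Infinite ∧ (A \ S).Infinite) → SeqSplit (X ∪ Y)

end Pool.Agent.Work.MP_674062_gt.Un
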